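import Pool.Agent.H62.AB.Bxd

/-!
# The rates of the place `c r` on the grid

`GrD.vfa`: the facts about the jets of the place `c r` for `boxd_ex`, from the output of `vrJ_use`.
-/

set_option autoImplicit false

namespace Pool.AB62

open Finset Real MvPolynomial
open Pool.Agent.H49.Ent Pool.Agent.H32.Dense Pool.STK Pool.KA Pool.KSAT Pool.K2S Pool.PB Pool.S6C
open Pool.GEN Pool.RCD Pool.LA91 Pool.OWN83
open Pool.LP30 Pool.LPJ30 Pool.LPT30 Pool.LST30 Pool.XG30
open Pool.AB63 Pool.AB91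
open Pool.FLN19 (AlvQ)
open Pool.RJ28 (dgj)

/-- **The rates of the place `c r`** on the grid; `H`: the output of `vrJ_use` at `q`, `b`. -/
theorem GrD.vfa {m : ℕ} {S : PCl m} {c : ℕ → Fin m} {r K kt N : ℕ} {L : ℕ → ℝ → ℝ → ℝ} {G : Set ℝ}
    {a p b o ε μ A₁ D₁ X γ s g₀ R q e : ℝ} {x φ : ℕ → ℝ}
    (g : GrD S c r K (fun l x => L l x x) G a p b o ε μ (A₁ * q) (D₁ * q) X γ s N x)
    (H : ∀ x o : ℝ, b ≤ x → x ≤ o → o ≤ g₀ + R * q → o - b ≤ D₁ * q →
      L r o o ≤ L r b b + A₁ * q → ∀ i : ℕ, 1 ≤ i → i ≤ kt →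
      (∀ N s : ℝ, 0 ≤ s → N ≤ L r o o - i * o + s →
        FewC S (fun J F => ptr F J) (vg x) (fun _ F => F.T)
          (paQ m c r b (fun l => L l b b)
            (fun l => L l b b + dgj (A₁ * q) (D₁ * q) r l + 2 * (D₁ * q))
            (fun l => L l b b + dgj (A₁ * q) (D₁ * q) r l + 2 * (D₁ * q) - b))
          (qJet m ((range r).image c) (c r) i b (L r b b) N)
          (φ i * (o - x) + e * q + s * Real.log 2)) ∧
      ∀ N s : ℝ, 0 ≤ s → L r o o - i * o ≤ N + s → ∃ e₀ : ℝ, 0 < e₀ ∧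
        AlvQ S x (fun _ F => F.T)
          (paQ m c r b (fun l => L l b b)
            (fun l => L l b b + dgj (A₁ * q) (D₁ * q) r l + 2 * (D₁ * q))
            (fun l => L l b b + dgj (A₁ * q) (D₁ * q) r l + 2 * (D₁ * q) - b))
          (qJet m ((range r).image c) (c r) i b (L r b b) N) e₀
          ((φ i - φ (i + 1)) * (o - x) - e * q - s * Real.log 2))
    (hR : x N ≤ g₀ + R * q) :
    (∀ l, 1 ≤ l → l ≤ kt → ∀ i j, i ≤ j → j ≤ N →
      Fcx S (x i) (paG m c r b (fun l x => L l x x) (A₁ * q) (D₁ * q))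
        (qu m c r b (fun l x => L l x x) l ((a - l) * (x j - b)))
        (φ l * (x j - x i) + (e * q + ε * Real.log 2))) ∧
    ∀ l, 1 ≤ l → l ≤ kt → ∀ i j, i ≤ j → j ≤ N →
      Alx S (x i) (paG m c r b (fun l x => L l x x) (A₁ * q) (D₁ * q))
        (qu m c r b (fun l x => L l x x) l ((a - l) * (x j - b)))
        ((φ l - φ (l + 1)) * (x j - x i) - (e * q + ε * Real.log 2)) := by
  have key : ∀ i j, i ≤ j → j ≤ N → b ≤ x i ∧ x i ≤ x j ∧ x j ≤ g₀ + R * q ∧
      x j - b ≤ D₁ * q ∧ L r (x j) (x j) ≤ L r b b + A₁ * q ∧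
      |L r (x j) (x j) - L r b b - a * (x j - b)| ≤ ε := by
    intro i j hij hj
    have h1 := g.bj (hij.trans hj)
    have h2 := g.mono i j hij hj
    have h3 := g.jN hj
    have h4 := g.bj hj
    have h5 : |L r (x j) (x j) - L r b b - a * (x j - b)| ≤ ε :=
      g.lin.lu b g.bG (x j) (g.xG j hj) g.pb' h4 (h3.trans g.xo)
    have h6 := abs_le.1 h5
    have h7 := g.RA
    have h8 := g.X0
    have h9 := g.s0
    have h10 := g.xb
    have h11 : a * (x j - b) ≤ a * (x N - b) := mul_le_mul_of_nonneg_left (by linarith) g.a0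
    exact ⟨h1, h2, by linarith, by linarith, by linarith [h6.2], h5⟩
  constructor
  · intro l l1 l2 i j hij hj
    obtain ⟨k1, k2, k3, k4, k5, k6⟩ := key i j hij hj
    have k7 := abs_le.1 k6
    have h1 := (H (x i) (x j) k1 k2 k3 k4 k5 l l1 l2).1
      (L r b b - l * b + (a - l) * (x j - b)) ε g.ε0 (by
        have e1 : L r b b - l * b + (a - l) * (x j - b) =
            L r b b + a * (x j - b) - l * x j := by ring
        rw [e1]
        linarith [k7.1])
    have h2 : Fcx S (x i) (paG m c r b (fun l x => L l x x) (A₁ * q) (D₁ * q))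
        (qu m c r b (fun l x => L l x x) l ((a - l) * (x j - b)))
        (φ l * (x j - x i) + e * q + ε * Real.log 2) := h1
    rw [← add_assoc]
    exact h2
  · intro l l1 l2 i j hij hj
    obtain ⟨k1, k2, k3, k4, k5, k6⟩ := key i j hij hj
    have k7 := abs_le.1 k6
    obtain ⟨e₀, he₀, h1⟩ := (H (x i) (x j) k1 k2 k3 k4 k5 l l1 l2).2
      (L r b b - l * b + (a - l) * (x j - b)) ε g.ε0 (by
        have e1 : L r b b - l * b + (a - l) * (x j - b) =
            L r b b + a * (x j - b) - l * x j := by ring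
        rw [e1]
        linarith [k7.2])
    refine ⟨e₀, he₀, fun K' => Bas.mono 0 (h1 K') ?_⟩
    intro J _ F B h u u' hu hu' V z hz
    have h2 := h u u' hu hu' V z hz
    refine le_trans (le_of_eq ?_) h2
    ring

end Pool.AB62
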