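import Pool.Agent.H62.AB.Qde
import Pool.Agent.H92.GN.Prod
import Pool.Agent.H92.D2.FreeN

/-!
# Relative numbers of families of quantities

`RNN`: the number of a quantity `Q` given another one `Qp`, the record and `y`. `RFam`: a family given
`Qp`, as `GFam`. `rnum_ext`, `rnum_le`, `rnum_sup`: as for `GFam`. `RSin`: a single quantity given
`Qp`. `num_rel`: on a sub-box the numbers of finitely many families are additive and the number of a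
single quantity, which depends on the scale, has a small drop.
-/

set_option autoImplicit false

namespace Pool.AB62

open Finset Real
open Pool.Agent.H49.Ent Pool.Agent.H32.Dense Pool.STK Pool.KA Pool.KSAT Pool.K2S Pool.PB Pool.S6C
open Pool.GEN Pool.RCD Pool.LA91 Pool.OWN83
open Pool.OWN68 (cl2_vg)
open Pool.T462 (ch_swap)

section

variable {m : ℕ} {Up U Ux : Type} {α β γ : ∀ J : ℕ, Fam m J → Type}
  {f : ∀ (J : ℕ) (F : Fam m J), F.Ω → α J F} {g : ∀ (J : ℕ) (F : Fam m J), F.Ω → β J F}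
  {y : ∀ (J : ℕ) (F : Fam m J), F.Ω → γ J F} {S : PCl m} {Qp : Qt m Up}

/-! ### One number -/

/-- **The number of `Q` given `Qp`**, the record and `y`. -/
def RNN (S : PCl m) (f : ∀ (J : ℕ) (F : Fam m J), F.Ω → α J F)
    (g : ∀ (J : ℕ) (F : Fam m J), F.Ω → β J F) (y : ∀ (J : ℕ) (F : Fam m J), F.Ω → γ J F)
    (Qp : Qt m Up) (Q : Qt m U) (θ : ℝ) : Prop :=
  ∀ h : ℝ, 0 < h → ∃ k : ℝ, 0 < k ∧ ∃ e₀ : ℝ, 0 < e₀ ∧ ∀ K : ℕ, Bas S (fun J F A =>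
    ∀ (V : Type) (z : F.Ω → V), Mx f g k F A z → ∀ pa u, Qp.P K e₀ J F A pa →
      Q.P K e₀ J F A u →
      |CH (Pool.Agent.H49.Ent.cond F.p A True) u (fun ω => (pa ω, (z ω, y J F ω))) - θ * J| ≤
        h * J)

/-- The relative number from the numbers of the joint quantity and of `Qp`. -/
theorem RNN.of {Q : Qt m U} {θ θ₁ : ℝ}
    (hpos : ∀ (τ : ℝ) (J : ℕ) (F : Fam m J) (A : F.Ω → Prop), S.St τ J F A → 0 < Pe F.p A)
    (N : NN S f g y (Qp.prod Q) θ) (N₁ : NN S f g y Qp θ₁) : RNN S f g y Qp Q (θ - θ₁) :=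
  fun h hh => NN.cond hpos N N₁ h hh

theorem RNN.sub {S' : PCl m} (hs : ∀ (τ : ℝ) (J : ℕ) (F : Fam m J) (A : F.Ω → Prop),
    S'.St τ J F A → S.St τ J F A) {Q : Qt m U} {θ : ℝ} (h : RNN S f g y Qp Q θ) :
    RNN S' f g y Qp Q θ := by
  intro c hc
  obtain ⟨k, hk, e, he, h1⟩ := h c hc
  exact ⟨k, hk, e, he, fun K => (h1 K).sub hs⟩

/-- The part `Qp` of a joint quantity exists. -/
theorem exs_fst {Q : Qt m U} (h : Exs S (Qp.prod Q)) : Exs S Qp := by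
  intro e he
  obtain ⟨K, M, h1⟩ := h e he
  refine ⟨K, M, Bas.mono 0 h1 ?_⟩
  rintro J - F A ⟨u, hu, hc⟩
  refine ⟨fun ω => (u ω).1, hu.1, le_trans ?_ hc⟩
  exact_mod_cast cnt_comp_le F.p u (fun ω => (u ω).1) Prod.fst fun ω _ _ => rfl

/-- **The number is a lower bound** given any closed function. -/
theorem RNN.low
    (hpos : ∀ (τ : ℝ) (J : ℕ) (F : Fam m J) (A : F.Ω → Prop), S.St τ J F A → 0 < Pe F.p A)
    {Q : Qt m U} {θ η : ℝ} (hη : RNum S f g η) (N : RNN S f g y Qp Q θ) (h : ℝ) (hh : 0 < h) :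
    ∃ e₀ : ℝ, 0 < e₀ ∧ ∀ K : ℕ, Bas S (fun J F A => ∀ (V : Type) (z : F.Ω → V),
      Cl2 (f J F) (g J F) A z → ∀ pa u, Qp.P K e₀ J F A pa → Q.P K e₀ J F A u →
      (θ - h) * J ≤ CH (Pool.Agent.H49.Ent.cond F.p A True) u
        (fun ω => (pa ω, (z ω, y J F ω)))) := by
  obtain ⟨k, hk, e₀, he₀, H⟩ := N (h / 2) (half_pos hh)
  refine ⟨e₀, he₀, fun K => Bas.mono 0 (((H K).and
    (mx_ex hpos hη (min k (h / 2)) (lt_min hk (half_pos hh)))).and (pos_bas hpos)) ?_⟩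
  rintro J - F A ⟨⟨H, V', z', hz'⟩, hA⟩ V z hz pa u hpa hu
  have hcl := isLaw_cond F.isLaw hA
  have hJ0 : (0 : ℝ) ≤ J := Nat.cast_nonneg J
  have h1 := (abs_le.1 (H V' z' ⟨hz'.1, fun V'' z'' hz'' => (hz'.2 V'' z'' hz'').trans
    (mul_le_mul_of_nonneg_right (min_le_left _ _) hJ0)⟩ pa u hpa hu)).1
  have h2 : CH (Pool.Agent.H49.Ent.cond F.p A True) z z' ≤ h / 2 * J :=
    (hz'.2 V z hz).trans (mul_le_mul_of_nonneg_right (min_le_right _ _) hJ0)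
  have h3 := CH_le_add hcl.nonneg u z (fun ω => (pa ω, (z' ω, y J F ω)))
  have h4 : CH (Pool.Agent.H49.Ent.cond F.p A True) z (fun ω => (pa ω, (z' ω, y J F ω))) ≤
      CH (Pool.Agent.H49.Ent.cond F.p A True) z z' := by
    refine CH_mono_cond hcl.nonneg fun ω ω' _ _ hh => ?_
    simp only [Prod.mk.injEq] at hh
    exact hh.2.1
  have h5 : CH (Pool.Agent.H49.Ent.cond F.p A True) u
      (fun ω => (z ω, (pa ω, (z' ω, y J F ω)))) ≤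
      CH (Pool.Agent.H49.Ent.cond F.p A True) u (fun ω => (pa ω, (z ω, y J F ω))) := by
    refine CH_mono_cond hcl.nonneg fun ω ω' _ _ hh => ?_
    simp only [Prod.mk.injEq] at hh ⊢
    exact ⟨hh.2.1, hh.1, hh.2.2.2⟩
  linarith

/-- **The bounds of the number.** -/
theorem RNN.le (hS : S.Ne)
    (hpos : ∀ (τ : ℝ) (J : ℕ) (F : Fam m J) (A : F.Ω → Prop), S.St τ J F A → 0 < Pe F.p A)
    {Q : Qt m U} {θ η c : ℝ} (hη : RNum S f g η) (hx : Exs S (Qp.prod Q))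
    (N : RNN S f g y Qp Q θ) (hc : FewC S f g y Qp Q c) : 0 ≤ θ ∧ θ ≤ c := by
  have key : ∀ ε : ℝ, 0 < ε → Bas S (fun J _ _ => 0 * J ≤ θ * J + ε * J ∧
      θ * J ≤ c * J + ε * J) := by
    intro ε hε
    obtain ⟨k, hk, e₀, he₀, H⟩ := N (ε / 2) (half_pos hε)
    obtain ⟨e₁, he₁, H₁⟩ := hc.mx hpos (ε / 2) (half_pos hε)
    obtain ⟨K, M, hx⟩ := hx (min e₀ e₁) (lt_min he₀ he₁)
    refine Bas.mono 0 (((H K).and (H₁ K)).and ((hx.and (mx_ex hpos hη (min k (ε / 2 / 2))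
      (lt_min hk (by positivity)))).and (pos_bas hpos))) ?_
    rintro J - F A ⟨⟨h1, h2⟩, ⟨⟨u, hu, -⟩, V, z, hz⟩, hA⟩
    have hJ0 : (0 : ℝ) ≤ J := Nat.cast_nonneg J
    have a1 := abs_le.1 (h1 V z (hz.le (min_le_left _ _)) _ _
      (Qp.mono le_rfl (min_le_left _ _) hu.1) (Q.mono le_rfl (min_le_left _ _) hu.2))
    have a2 := h2 V z (hz.le (min_le_right _ _)) _ _ (Qp.mono le_rfl (min_le_right _ _) hu.1)
      (Q.mono le_rfl (min_le_right _ _) hu.2)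
    have a3 := CH_nonneg (isLaw_cond F.isLaw hA).nonneg (fun ω => (u ω).2)
      (fun ω => ((u ω).1, (z ω, y J F ω)))
    have a4 : 0 ≤ ε * (J : ℝ) := by positivity
    refine ⟨by linarith [a1.2], by linarith [a1.1]⟩
  exact ⟨le_of_bas hS fun ε hε => Bas.mono 0 (key ε hε) fun _ _ _ _ h => h.1,
    le_of_bas hS fun ε hε => Bas.mono 0 (key ε hε) fun _ _ _ _ h => h.2⟩

/-- The number is not negative. -/
theorem RNN.nn (hS : S.Ne)
    (hpos : ∀ (τ : ℝ) (J : ℕ) (F : Fam m J) (A : F.Ω → Prop), S.St τ J F A → 0 < Pe F.p A)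
    {Q : Qt m U} {θ η : ℝ} (hη : RNum S f g η) (hx : Exs S (Qp.prod Q))
    (N : RNN S f g y Qp Q θ) : 0 ≤ θ := by
  refine le_of_bas hS fun ε hε => ?_
  obtain ⟨k, hk, e₀, he₀, H⟩ := N (ε / 2) (half_pos hε)
  obtain ⟨K, M, hx⟩ := hx e₀ he₀
  refine Bas.mono 0 ((H K).and ((hx.and (mx_ex hpos hη k hk)).and (pos_bas hpos))) ?_
  rintro J - F A ⟨h1, ⟨⟨u, hu, -⟩, V, z, hz⟩, hA⟩
  have a1 := abs_le.1 (h1 V z hz _ _ hu.1 hu.2)
  have a3 := CH_nonneg (isLaw_cond F.isLaw hA).nonneg (fun ω => (u ω).2)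
    (fun ω => ((u ω).1, (z ω, y J F ω)))
  have a4 : 0 ≤ ε * (J : ℝ) := by positivity
  linarith [a1.2]

/-- **The number decreases** with the window of the record. -/
theorem RNN.anti (hS : S.Ne)
    (hpos : ∀ (τ : ℝ) (J : ℕ) (F : Fam m J) (A : F.Ω → Prop), S.St τ J F A → 0 < Pe F.p A)
    {Q : Qt m U} {v v' θ θ' η η' : ℝ} (hv : v ≤ v') (hv' : v' ≤ 1) (hη : RNum S f (vg v) η)
    (hη' : RNum S f (vg v') η') (hx : Exs S (Qp.prod Q)) (N : RNN S f (vg v) y Qp Q θ)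
    (N' : RNN S f (vg v') y Qp Q θ') : θ' ≤ θ := by
  refine le_of_bas hS fun ε hε => ?_
  obtain ⟨k, hk, e₀, he₀, H⟩ := N (ε / 2) (half_pos hε)
  obtain ⟨e₁, he₁, H₁⟩ := N'.low hpos hη' (ε / 2) (half_pos hε)
  obtain ⟨K, M, hx⟩ := hx (min e₀ e₁) (lt_min he₀ he₁)
  refine Bas.mono 0 (((H K).and (H₁ K)).and ((hx.and (mx_ex hpos hη k hk)).and
    (pos_bas hpos))) ?_
  rintro J - F A ⟨⟨h1, h2⟩, ⟨⟨u, hu, -⟩, V, z, hz⟩, hA⟩
  have a1 := abs_le.1 (h1 V z hz _ _ (Qp.mono le_rfl (min_le_left _ _) hu.1)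
    (Q.mono le_rfl (min_le_left _ _) hu.2))
  have a2 := h2 V z (cl2_vg hv hv' hz.1) _ _ (Qp.mono le_rfl (min_le_right _ _) hu.1)
    (Q.mono le_rfl (min_le_right _ _) hu.2)
  linarith [a1.2]

/-! ### Families -/

/-- **The family of quantities** at the windows `x 0 ≤ … ≤ x N`, given `Qp`. -/
structure RFam (S : PCl m) (f : ∀ (J : ℕ) (F : Fam m J), F.Ω → α J F)
    (y : ∀ (J : ℕ) (F : Fam m J), F.Ω → γ J F) (N : ℕ) (x : ℕ → ℝ) (Qp : Qt m Up)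
    (Q : ℕ → Qt m U) (C δ : ℝ) : Prop where
  mono : ∀ i j, i ≤ j → j ≤ N → x i ≤ x j
  one : x N ≤ 1
  exs : ∀ j ≤ N, Exs S (Qp.prod (Q j))
  pp : ∀ i ≤ N, Few S f (vg (x i)) y Qp Qp
  few : ∀ i j, i ≤ j → j ≤ N → Few S f (vg (x i)) y (Qp.prod (Q j)) (Q j)
  crs : ∀ i j k, i ≤ j → j ≤ k → k ≤ N → Few S f (vg (x i)) y (Qp.prod (Q k)) (Q j)
  cap : ∀ i j, i ≤ j → j ≤ N → FewC S f (vg (x i)) y Qp (Q j) (C * (x j - x i) + δ)

/-- **A single quantity** given `Qp`. -/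
structure RSin (S : PCl m) (f : ∀ (J : ℕ) (F : Fam m J), F.Ω → α J F)
    (y : ∀ (J : ℕ) (F : Fam m J), F.Ω → γ J F) (N : ℕ) (x : ℕ → ℝ) (Qp : Qt m Up)
    (Q : Qt m U) : Prop where
  exs : Exs S (Qp.prod Q)
  pp : ∀ i ≤ N, Few S f (vg (x i)) y Qp Qp
  few : ∀ i ≤ N, Few S f (vg (x i)) y (Qp.prod Q) Q

/-- **The numbers of the family.** -/
def RNums (S : PCl m) (f : ∀ (J : ℕ) (F : Fam m J), F.Ω → α J F)
    (y : ∀ (J : ℕ) (F : Fam m J), F.Ω → γ J F) (N : ℕ) (x : ℕ → ℝ) (Qp : Qt m Up)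
    (Q : ℕ → Qt m U) (θ : ℕ → ℕ → ℝ) : Prop :=
  ∀ i j, i ≤ j → j ≤ N → RNN S f (vg (x i)) y Qp (Q j) (θ i j)

/-- **The numbers of a single quantity.** -/
def SNums (S : PCl m) (f : ∀ (J : ℕ) (F : Fam m J), F.Ω → α J F)
    (y : ∀ (J : ℕ) (F : Fam m J), F.Ω → γ J F) (N : ℕ) (x : ℕ → ℝ) (Qp : Qt m Up)
    (Q : Qt m U) (ψ : ℕ → ℝ) : Prop := ∀ i ≤ N, RNN S f (vg (x i)) y Qp Q (ψ i)

/-- **The records have numbers.** -/
def RcNums (S : PCl m) (f : ∀ (J : ℕ) (F : Fam m J), F.Ω → α J F) (N : ℕ) (x : ℕ → ℝ) : Prop :=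
  ∀ i ≤ N, ∃ η, RNum S f (vg (x i)) η

variable {N : ℕ} {x : ℕ → ℝ} {Q : ℕ → Qt m U} {Qx : Qt m Ux} {C δ : ℝ} {θ : ℕ → ℕ → ℝ} {ψ : ℕ → ℝ}

theorem RFam.sub {S' : PCl m} (hs : ∀ (τ : ℝ) (J : ℕ) (F : Fam m J) (A : F.Ω → Prop),
    S'.St τ J F A → S.St τ J F A) (h : RFam S f y N x Qp Q C δ) :
    RFam S' f y N x Qp Q C δ where
  mono := h.mono
  one := h.one
  exs := fun j hj => (h.exs j hj).sub hs
  pp := fun i hi => (h.pp i hi).sub hs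
  few := fun i j a b => (h.few i j a b).sub hs
  crs := fun i j k a b c => (h.crs i j k a b c).sub hs
  cap := fun i j a b => (h.cap i j a b).sub hs

theorem RSin.sub {S' : PCl m} (hs : ∀ (τ : ℝ) (J : ℕ) (F : Fam m J) (A : F.Ω → Prop),
    S'.St τ J F A → S.St τ J F A) (h : RSin S f y N x Qp Qx) : RSin S' f y N x Qp Qx where
  exs := h.exs.sub hs
  pp := fun i hi => (h.pp i hi).sub hs
  few := fun i hi => (h.few i hi).sub hs

theorem RNums.sub {S' : PCl m} (hs : ∀ (τ : ℝ) (J : ℕ) (F : Fam m J) (A : F.Ω → Prop),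
    S'.St τ J F A → S.St τ J F A) (h : RNums S f y N x Qp Q θ) : RNums S' f y N x Qp Q θ :=
  fun i j a b => (h i j a b).sub hs

theorem SNums.sub {S' : PCl m} (hs : ∀ (τ : ℝ) (J : ℕ) (F : Fam m J) (A : F.Ω → Prop),
    S'.St τ J F A → S.St τ J F A) (h : SNums S f y N x Qp Qx ψ) : SNums S' f y N x Qp Qx ψ :=
  fun i hi => (h i hi).sub hs

theorem RcNums.sub {S' : PCl m} (hs : ∀ (τ : ℝ) (J : ℕ) (F : Fam m J) (A : F.Ω → Prop),
    S'.St τ J F A → S.St τ J F A) (h : RcNums S f N x) : RcNums S' f N x := fun i hi => by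
  obtain ⟨η, hη⟩ := h i hi
  exact ⟨η, hη.sub hs⟩

/-- **The records have numbers** in a subclass. -/
theorem rec_ext (hS : S.Ne)
    (hpos : ∀ (τ : ℝ) (J : ℕ) (F : Fam m J) (A : F.Ω → Prop), S.St τ J F A → 0 < Pe F.p A)
    {M : ℝ} (hM : Bas S (fun J F A => (cnt F.p (f J F) A : ℝ) ≤ Real.exp (M * J))) (N : ℕ)
    (x : ℕ → ℝ) : ∃ S' : PCl m, S'.Ne ∧
      (∀ (τ : ℝ) (J : ℕ) (F : Fam m J) (A : F.Ω → Prop), S'.St τ J F A → S.St τ J F A) ∧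
      RcNums S' f N x := by
  obtain ⟨S₂, g1, g2, g3⟩ := ext_rec hS hpos (fun _ => α) (fun _ _ F => LnT F) (fun _ => f)
    (fun i => vg (x i)) (fun _ => M) (fun _ => hM)
  exact ⟨S₂, g1, g2, fun i _ => g3 i⟩

/-- **The numbers of countably many pairs of quantities** in a subclass. -/
theorem rnn_ext (hS : S.Ne)
    (hpos : ∀ (τ : ℝ) (J : ℕ) (F : Fam m J) (A : F.Ω → Prop), S.St τ J F A → 0 < Pe F.p A)
    {v : ℕ → ℝ} {Qs : ℕ → Qt m U} (hx : ∀ n, Exs S (Qp.prod (Qs n)))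
    (hp : ∀ n, Few S f (vg (v n)) y Qp Qp)
    (hf : ∀ n, Few S f (vg (v n)) y (Qp.prod (Qs n)) (Qs n)) :
    ∃ S' : PCl m, S'.Ne ∧
      (∀ (τ : ℝ) (J : ℕ) (F : Fam m J) (A : F.Ω → Prop), S'.St τ J F A → S.St τ J F A) ∧
      ∀ n, ∃ θ : ℝ, RNN S' f (vg (v n)) y Qp (Qs n) θ := by
  obtain ⟨S₁, h1, h2, h3⟩ := nn_ext hS hpos (fun _ => Up × U) (fun _ => α) (fun _ J F => LnT F)
    (fun _ => γ) (fun _ => f) (fun n => vg (v n)) (fun _ => y) (fun n => Qp.prod (Qs n)) hx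
    (fun n => Few.pair hpos (Few.fst hpos (hp n)) (hf n))
  have hpos₁ : ∀ (τ : ℝ) (J : ℕ) (F : Fam m J) (A : F.Ω → Prop), S₁.St τ J F A → 0 < Pe F.p A :=
    fun τ J F A h => hpos τ J F A (h2 τ J F A h)
  obtain ⟨S₂, g1, g2, g3⟩ := nn_ext h1 hpos₁ (fun _ => Up) (fun _ => α) (fun _ J F => LnT F)
    (fun _ => γ) (fun _ => f) (fun n => vg (v n)) (fun _ => y) (fun _ => Qp)
    (fun n => (exs_fst (hx n)).sub h2) (fun n => (hp n).sub h2)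
  refine ⟨S₂, g1, fun τ J F A h => h2 τ J F A (g2 τ J F A h), fun n => ?_⟩
  obtain ⟨θ, hθ⟩ := h3 n
  obtain ⟨θ₁, hθ₁⟩ := g3 n
  exact ⟨θ - θ₁, RNN.of (fun τ J F A h => hpos₁ τ J F A (g2 τ J F A h)) (hθ.sub g2) hθ₁⟩

/-- **The numbers of a family** in a subclass. -/
theorem rnum_ext (hS : S.Ne)
    (hpos : ∀ (τ : ℝ) (J : ℕ) (F : Fam m J) (A : F.Ω → Prop), S.St τ J F A → 0 < Pe F.p A)
    (h : RFam S f y N x Qp Q C δ) :
    ∃ S' : PCl m, S'.Ne ∧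
      (∀ (τ : ℝ) (J : ℕ) (F : Fam m J) (A : F.Ω → Prop), S'.St τ J F A → S.St τ J F A) ∧
      ∃ θ : ℕ → ℕ → ℝ, RNums S' f y N x Qp Q θ := by
  obtain ⟨S₁, h1, h2, h3⟩ := rnn_ext (f := f) (y := y) (Qp := Qp) hS hpos
    (v := fun n => x (min n.unpair.1 (min n.unpair.2 N))) (Qs := fun n => Q (min n.unpair.2 N))
    (fun n => h.exs _ (min_le_right _ _))
    (fun n => h.pp _ ((min_le_right _ _).trans (min_le_right _ _)))
    (fun n => h.few _ _ (min_le_right _ _) (min_le_right _ _))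
  choose θ hθ using h3
  refine ⟨S₁, h1, h2, fun i j => θ (Nat.pair i j), fun i j a b => ?_⟩
  have h4 := hθ (Nat.pair i j)
  rw [Nat.unpair_pair] at h4
  dsimp only at h4
  rw [min_eq_left b, min_eq_left a] at h4
  exact h4

/-- **The numbers of a single quantity** in a subclass. -/
theorem snum_ext (hS : S.Ne)
    (hpos : ∀ (τ : ℝ) (J : ℕ) (F : Fam m J) (A : F.Ω → Prop), S.St τ J F A → 0 < Pe F.p A)
    (h : RSin S f y N x Qp Qx) :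
    ∃ S' : PCl m, S'.Ne ∧
      (∀ (τ : ℝ) (J : ℕ) (F : Fam m J) (A : F.Ω → Prop), S'.St τ J F A → S.St τ J F A) ∧
      ∃ ψ : ℕ → ℝ, SNums S' f y N x Qp Qx ψ := by
  obtain ⟨S₁, h1, h2, h3⟩ := rnn_ext (f := f) (y := y) (Qp := Qp) hS hpos
    (v := fun n => x (min n N)) (Qs := fun _ => Qx) (fun _ => h.exs)
    (fun n => h.pp _ (min_le_right _ _)) (fun n => h.few _ (min_le_right _ _))
  choose ψ hψ using h3
  refine ⟨S₁, h1, h2, ψ, fun i hi => ?_⟩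
  have h4 := hψ i
  rw [min_eq_left hi] at h4
  exact h4

/-- **The bounds of the numbers.** -/
theorem rnum_le (hS : S.Ne)
    (hpos : ∀ (τ : ℝ) (J : ℕ) (F : Fam m J) (A : F.Ω → Prop), S.St τ J F A → 0 < Pe F.p A)
    (h : RFam S f y N x Qp Q C δ) (r : RcNums S f N x) (n : RNums S f y N x Qp Q θ) {i j : ℕ}
    (hij : i ≤ j) (hj : j ≤ N) : 0 ≤ θ i j ∧ θ i j ≤ C * (x j - x i) + δ := by
  obtain ⟨η, hη⟩ := r i (hij.trans hj)
  exact RNN.le hS hpos hη (h.exs j hj) (n i j hij hj) (h.cap i j hij hj)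

/-- **The numbers are superadditive** up to `δ`. -/
theorem rnum_sup (hS : S.Ne)
    (hpos : ∀ (τ : ℝ) (J : ℕ) (F : Fam m J) (A : F.Ω → Prop), S.St τ J F A → 0 < Pe F.p A)
    (h : RFam S f y N x Qp Q C δ) (r : RcNums S f N x) (n : RNums S f y N x Qp Q θ)
    {i j k : ℕ} (hij : i ≤ j) (hjk : j ≤ k) (hk : k ≤ N) : θ i j + θ j k ≤ θ i k + δ := by
  obtain ⟨η, hη⟩ := r i (hij.trans (hjk.trans hk))
  obtain ⟨η', hη'⟩ := r j (hjk.trans hk)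
  refine le_of_bas hS fun ε hε => ?_
  obtain ⟨κ, hκ⟩ : ∃ κ : ℝ, κ = ε / 8 := ⟨_, rfl⟩
  have hκ0 : 0 < κ := by rw [hκ]; positivity
  obtain ⟨k1, hk1, e1, he1, H1⟩ := n i k (hij.trans hjk) hk κ hκ0
  obtain ⟨k2, hk2, e2, he2, H2⟩ := n i j hij (hjk.trans hk) κ hκ0
  obtain ⟨e3, he3, H3⟩ := (h.crs i j k hij hjk hk).mx hpos κ hκ0
  obtain ⟨e4, he4, H4⟩ := (h.cap j j le_rfl (hjk.trans hk)).mx hpos κ hκ0
  obtain ⟨e5, he5, H5⟩ := (n j k hjk hk).low hpos hη' κ hκ0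
  obtain ⟨e₀, he₀, l1, l2, l3, l4, l5⟩ : ∃ e₀ : ℝ, 0 < e₀ ∧ e₀ ≤ e1 ∧ e₀ ≤ e2 ∧ e₀ ≤ e3 ∧
      e₀ ≤ e4 ∧ e₀ ≤ e5 :=
    ⟨min e1 (min e2 (min e3 (min e4 e5))), by positivity, min_le_left _ _,
      (min_le_right _ _).trans (min_le_left _ _),
      (min_le_right _ _).trans ((min_le_right _ _).trans (min_le_left _ _)),
      (min_le_right _ _).trans ((min_le_right _ _).trans ((min_le_right _ _).trans
        (min_le_left _ _))),
      (min_le_right _ _).trans ((min_le_right _ _).trans ((min_le_right _ _).trans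
        (min_le_right _ _)))⟩
  obtain ⟨k₀, hk₀, m1, m2, m3⟩ : ∃ k₀ : ℝ, 0 < k₀ ∧ k₀ ≤ k1 ∧ k₀ ≤ k2 ∧ k₀ ≤ κ / 2 :=
    ⟨min k1 (min k2 (κ / 2)), by positivity, min_le_left _ _,
      (min_le_right _ _).trans (min_le_left _ _),
      (min_le_right _ _).trans (min_le_right _ _)⟩
  obtain ⟨K, M, hx⟩ := (exs_fst (h.exs k hk)) e₀ he₀
  obtain ⟨K', M', hx'⟩ := h.exs j (hjk.trans hk) e₀ he₀
  obtain ⟨K'', M'', hx''⟩ := h.exs k hk e₀ he₀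
  obtain ⟨L, hL⟩ : ∃ L, L = max K (max K' K'') := ⟨_, rfl⟩
  refine Bas.mono 0 ((((H1 L).and (H2 L)).and (((H3 L).and (H4 L)).and (H5 L))).and
    (((hx.and (hx'.and hx'')).and ((mx_ex hpos hη k₀ hk₀).and (mx_ex hpos hη' k₀ hk₀))).and
    (pos_bas hpos))) ?_
  rintro J - F A ⟨⟨⟨h1, h2⟩, ⟨h3, h4⟩, h5⟩,
    ⟨⟨⟨pa, hpa, -⟩, ⟨v', hv', -⟩, v, hv, -⟩, ⟨V, z, hz⟩, V', z', hz'⟩, hA⟩
  obtain ⟨u, hu'⟩ : ∃ u : F.Ω → U, u = fun ω => (v ω).2 := ⟨_, rfl⟩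
  obtain ⟨u', hu''⟩ : ∃ u : F.Ω → U, u = fun ω => (v' ω).2 := ⟨_, rfl⟩
  have hu : (Q k).P K'' e₀ J F A u := by rw [hu']; exact hv.2
  have hub : (Q j).P K' e₀ J F A u' := by rw [hu'']; exact hv'.2
  have hJ0 : (0 : ℝ) ≤ J := Nat.cast_nonneg J
  have hcl := isLaw_cond F.isLaw hA
  have hK1 : K ≤ L := by rw [hL]; exact le_max_left _ _
  have hK2 : K' ≤ L := by rw [hL]; exact (le_max_left _ _).trans (le_max_right _ _)
  have hK3 : K'' ≤ L := by rw [hL]; exact (le_max_right _ _).trans (le_max_right _ _)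
  have pae : ∀ e, e₀ ≤ e → Qp.P L e J F A pa := fun e he => Qp.mono hK1 he hpa
  have ue : ∀ e, e₀ ≤ e → (Q k).P L e J F A u := fun e he => (Q k).mono hK3 he hu
  have ue' : ∀ e, e₀ ≤ e → (Q j).P L e J F A u' := fun e he => (Q j).mono hK2 he hub
  have a1 := (abs_le.1 (h1 V z (hz.le m1) pa u (pae _ l1) (ue _ l1))).2
  have a2 := (abs_le.1 (h2 V z (hz.le m2) pa u' (pae _ l2) (ue' _ l2))).1
  have a3 := h3 V z (hz.le m3) (fun ω => (pa ω, u ω)) u' ⟨pae _ l3, ue _ l3⟩ (ue' _ l3)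
  have a4 := h4 V' z' (hz'.le m3) pa u' (pae _ l4) (ue' _ l4)
  rw [sub_self, mul_zero, zero_add] at a4
  have a5 := h5 _ (fun ω => (z' ω, z ω)) (hz'.1.join (cl2_vg (h.mono i j hij (hjk.trans hk))
    ((h.mono j N (hjk.trans hk) le_rfl).trans h.one) hz.1)) pa u (pae _ l5) (ue _ l5)
  have b1 := ch_swap hcl.nonneg u u' (fun ω => (pa ω, (z ω, y J F ω)))
  have b2 := CH_le_add hcl.nonneg u u' (fun ω => (pa ω, ((z' ω, z ω), y J F ω)))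
  have b3 : CH (Pool.Agent.H49.Ent.cond F.p A True) u'
      (fun ω => (pa ω, ((z' ω, z ω), y J F ω))) ≤
      CH (Pool.Agent.H49.Ent.cond F.p A True) u' (fun ω => (pa ω, (z' ω, y J F ω))) := by
    refine CH_mono_cond hcl.nonneg fun ω ω' _ _ hh => ?_
    simp only [Prod.mk.injEq] at hh ⊢
    exact ⟨hh.1, hh.2.1.1, hh.2.2⟩
  have b4 : CH (Pool.Agent.H49.Ent.cond F.p A True) u
      (fun ω => (u' ω, (pa ω, ((z' ω, z ω), y J F ω)))) ≤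
      CH (Pool.Agent.H49.Ent.cond F.p A True) u
        (fun ω => (u' ω, (pa ω, (z ω, y J F ω)))) := by
    refine CH_mono_cond hcl.nonneg fun ω ω' _ _ hh => ?_
    simp only [Prod.mk.injEq] at hh ⊢
    exact ⟨hh.1, hh.2.1, hh.2.2.1.2, hh.2.2.2⟩
  have b5 : CH (Pool.Agent.H49.Ent.cond F.p A True) u'
      (fun ω => (u ω, (pa ω, (z ω, y J F ω)))) ≤
      CH (Pool.Agent.H49.Ent.cond F.p A True) u'
        (fun ω => ((pa ω, u ω), (z ω, y J F ω))) := by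
    refine CH_mono_cond hcl.nonneg fun ω ω' _ _ hh => ?_
    simp only [Prod.mk.injEq] at hh ⊢
    exact ⟨⟨hh.2.1, hh.1⟩, hh.2.2⟩
  have e1 : ε * (J : ℝ) = 8 * (κ * J) := by rw [hκ]; ring
  have e2 : 0 ≤ κ * (J : ℝ) := by positivity
  rw [e1]
  linarith

/-! ### Finitely many families and single quantities -/

/-- **The numbers of finitely many families** in a subclass. -/
theorem rnum_all (hS : S.Ne)
    (hpos : ∀ (τ : ℝ) (J : ℕ) (F : Fam m J) (A : F.Ω → Prop), S.St τ J F A → 0 < Pe F.p A)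
    {U : ℕ → Type} {Q : ∀ l, ℕ → Qt m (U l)} (nl : ℕ)
    (h : ∀ l < nl, RFam S f y N x Qp (Q l) C δ) :
    ∃ S' : PCl m, S'.Ne ∧
      (∀ (τ : ℝ) (J : ℕ) (F : Fam m J) (A : F.Ω → Prop), S'.St τ J F A → S.St τ J F A) ∧
      ∃ θ : ℕ → ℕ → ℕ → ℝ, ∀ l < nl, RNums S' f y N x Qp (Q l) (θ l) := by
  induction nl with
  | zero => exact ⟨S, hS, fun _ _ _ _ h => h, fun _ _ _ => 0, fun l hl => absurd hl (by omega)⟩
  | succ nl ih =>
    obtain ⟨S₁, h1, h2, θ, hθ⟩ := ih fun l hl => h l (by omega)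
    obtain ⟨S₂, g1, g2, θ', hθ'⟩ := rnum_ext h1 (fun τ J F A h => hpos τ J F A (h2 τ J F A h))
      ((h nl (by omega)).sub h2)
    refine ⟨S₂, g1, fun τ J F A h => h2 τ J F A (g2 τ J F A h),
      fun l => if l = nl then θ' else θ l, fun l hl => ?_⟩
    by_cases hl' : l = nl
    · subst hl'
      simp only [if_true]
      exact hθ'
    · simp only [if_neg hl']
      exact (hθ l (by omega)).sub g2

/-- **The numbers of finitely many single quantities** in a subclass. -/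
theorem snum_all (hS : S.Ne)
    (hpos : ∀ (τ : ℝ) (J : ℕ) (F : Fam m J) (A : F.Ω → Prop), S.St τ J F A → 0 < Pe F.p A)
    {Ux : ℕ → Type} {Qx : ∀ k, Qt m (Ux k)} (n : ℕ)
    (h : ∀ k, 1 ≤ k → k ≤ n → RSin S f y N x Qp (Qx k)) :
    ∃ S' : PCl m, S'.Ne ∧
      (∀ (τ : ℝ) (J : ℕ) (F : Fam m J) (A : F.Ω → Prop), S'.St τ J F A → S.St τ J F A) ∧
      ∃ ψ : ℕ → ℕ → ℝ, ∀ k, 1 ≤ k → k ≤ n → SNums S' f y N x Qp (Qx k) (ψ k) := by
  induction n with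
  | zero => exact ⟨S, hS, fun _ _ _ _ h => h, fun _ _ => 0, fun k h1 h2 => absurd h1 (by omega)⟩
  | succ n ih =>
    obtain ⟨S₁, h1, h2, ψ, hψ⟩ := ih fun k a b => h k a (by omega)
    obtain ⟨S₂, g1, g2, ψ', hψ'⟩ := snum_ext h1 (fun τ J F A h => hpos τ J F A (h2 τ J F A h))
      ((h (n + 1) (by omega) le_rfl).sub h2)
    refine ⟨S₂, g1, fun τ J F A h => h2 τ J F A (g2 τ J F A h),
      fun k => if k = n + 1 then ψ' else ψ k, fun k hk hk' => ?_⟩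
    by_cases hk'' : k = n + 1
    · subst hk''
      simp only [if_true]
      exact hψ'
    · simp only [if_neg hk'']
      exact (hψ k hk (by omega)).sub g2

/-- **Relative numbers on a sub-box.** `nl` families `Q l`, `l < nl`, at the windows
`t + (i / L ^ n) q`; a single quantity `Qx k` for each scale `k`, with at most `B q / L ^ k` bits given
`Qp` at the first window. In a subclass there is a sub-box with `L` steps of the length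
`ρ = q / L ^ k`, starting at a multiple of `L ρ`: the numbers of all the families are additive up to
`κ₀ ρ`, the number of `Qx k` drops by at most `κ₁ ρ`. -/
theorem num_rel (hS : S.Ne)
    (hpos : ∀ (τ : ℝ) (J : ℕ) (F : Fam m J) (A : F.Ω → Prop), S.St τ J F A → 0 < Pe F.p A)
    {M : ℝ} (hM : Bas S (fun J F A => (cnt F.p (f J F) A : ℝ) ≤ Real.exp (M * J)))
    {U Ux : ℕ → Type} {Q : ∀ l, ℕ → Qt m (U l)} {Qx : ∀ k, Qt m (Ux k)} {nl L n n' β : ℕ}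
    {t q κ₀ κ₁ B : ℝ} (hL : 1 ≤ L) (hn : 1 ≤ n') (hn' : n' ≤ n) (hβ : 4 * β ≤ L ^ (n - n'))
    (hq : 0 < q) (htq : t + q ≤ 1) (hC : 0 ≤ C) (hδ : 0 ≤ δ) (hκ : 0 < κ₀) (hκ₁ : 0 < κ₁)
    (hxw : ∀ i ≤ L ^ n, x i = t + (i / (L : ℝ) ^ n) * q)
    (h : ∀ l < nl, RFam S f y (L ^ n) x Qp (Q l) C δ)
    (hX : ∀ k, 1 ≤ k → k ≤ n → RSin S f y (L ^ n) x Qp (Qx k))
    (hXc : ∀ k, 1 ≤ k → k ≤ n → FewC S f (vg (x 0)) y Qp (Qx k) (B * (q / (L : ℝ) ^ k)))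
    (hB : B ≤ κ₁ * β) (hnum : 4 * (nl * (C + 1)) * L ≤ κ₀ * n')
    (hδ' : 2 * ((3 * L + 3) * (nl * (δ * (L : ℝ) ^ n))) ≤ κ₀ * q) (hδq : δ ≤ q) :
    ∃ S' : PCl m, S'.Ne ∧
      (∀ (τ : ℝ) (J : ℕ) (F : Fam m J) (A : F.Ω → Prop), S'.St τ J F A → S.St τ J F A) ∧
      ∃ (θ : ℕ → ℕ → ℕ → ℝ) (ψ : ℕ → ℕ → ℝ) (k p : ℕ),
        (∀ l < nl, RNums S' f y (L ^ n) x Qp (Q l) (θ l)) ∧
        (∀ k', 1 ≤ k' → k' ≤ n → SNums S' f y (L ^ n) x Qp (Qx k') (ψ k')) ∧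
        RcNums S' f (L ^ n) x ∧ 1 ≤ k ∧ n - n' < k ∧ k ≤ n ∧ L ∣ p ∧ p + L ≤ L ^ k ∧
        (∀ i ≤ L, (p + i) * L ^ (n - k) ≤ L ^ n ∧
          x ((p + i) * L ^ (n - k)) = t + ((p + i : ℕ) / (L : ℝ) ^ k) * q) ∧
        (∀ l < nl, ∀ i j : ℕ, i ≤ j → j ≤ L →
          0 ≤ θ l ((p + i) * L ^ (n - k)) ((p + j) * L ^ (n - k)) ∧
          θ l ((p + i) * L ^ (n - k)) ((p + j) * L ^ (n - k)) ≤
            C * (((j : ℝ) - i) * (q / (L : ℝ) ^ k)) + κ₀ * (q / (L : ℝ) ^ k)) ∧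
        (∀ l < nl, ∀ i j i' : ℕ, i ≤ j → j ≤ i' → i' ≤ L →
          θ l ((p + i) * L ^ (n - k)) ((p + j) * L ^ (n - k)) +
            θ l ((p + j) * L ^ (n - k)) ((p + i') * L ^ (n - k)) ≤
          θ l ((p + i) * L ^ (n - k)) ((p + i') * L ^ (n - k)) + κ₀ * (q / (L : ℝ) ^ k) ∧
          θ l ((p + i) * L ^ (n - k)) ((p + i') * L ^ (n - k)) ≤
            θ l ((p + i) * L ^ (n - k)) ((p + j) * L ^ (n - k)) +
            θ l ((p + j) * L ^ (n - k)) ((p + i') * L ^ (n - k)) + κ₀ * (q / (L : ℝ) ^ k)) ∧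
        ∀ i j : ℕ, i ≤ j → j ≤ L → ψ k ((p + j) * L ^ (n - k)) ≤ ψ k ((p + i) * L ^ (n - k)) ∧
          ψ k ((p + i) * L ^ (n - k)) ≤
            ψ k ((p + j) * L ^ (n - k)) + κ₁ * (q / (L : ℝ) ^ k) := by
  obtain ⟨S₁, a1, a2, a3⟩ := rec_ext hS hpos hM (L ^ n) x
  have hpos₁ : ∀ (τ : ℝ) (J : ℕ) (F : Fam m J) (A : F.Ω → Prop), S₁.St τ J F A → 0 < Pe F.p A :=
    fun τ J F A h => hpos τ J F A (a2 τ J F A h)
  obtain ⟨S₂, b1, b2, θ, b3⟩ := rnum_all a1 hpos₁ nl fun l hl => (h l hl).sub a2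
  have hpos₂ : ∀ (τ : ℝ) (J : ℕ) (F : Fam m J) (A : F.Ω → Prop), S₂.St τ J F A → 0 < Pe F.p A :=
    fun τ J F A h => hpos₁ τ J F A (b2 τ J F A h)
  obtain ⟨S₃, c1, c2, ψ, c3⟩ := snum_all b1 hpos₂ n
    fun k hk hk' => ((hX k hk hk').sub a2).sub b2
  have hs : ∀ (τ : ℝ) (J : ℕ) (F : Fam m J) (A : F.Ω → Prop), S₃.St τ J F A → S.St τ J F A :=
    fun τ J F A h => a2 τ J F A (b2 τ J F A (c2 τ J F A h))
  have hpos₃ : ∀ (τ : ℝ) (J : ℕ) (F : Fam m J) (A : F.Ω → Prop), S₃.St τ J F A → 0 < Pe F.p A :=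
    fun τ J F A h => hpos τ J F A (hs τ J F A h)
  have hrc : RcNums S₃ f (L ^ n) x := (a3.sub b2).sub c2
  have hL0 : (0 : ℝ) < L := by exact_mod_cast hL
  have hLn : (0 : ℝ) < (L : ℝ) ^ n := by positivity
  have hmx : ∀ i j : ℕ, i ≤ j → j ≤ L ^ n → x i ≤ x j ∧ x j ≤ 1 := by
    intro i j hij hj
    rw [hxw i (hij.trans hj), hxw j hj]
    have h1 : (i : ℝ) / (L : ℝ) ^ n ≤ j / (L : ℝ) ^ n :=
      div_le_div_of_nonneg_right (by exact_mod_cast hij) hLn.le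
    have h2 : (j : ℝ) / (L : ℝ) ^ n ≤ 1 := by
      rw [div_le_one hLn]
      exact_mod_cast hj
    have h3 := mul_le_mul_of_nonneg_right h1 hq.le
    have h4 := mul_le_mul_of_nonneg_right h2 hq.le
    exact ⟨by linarith, by linarith⟩
  obtain ⟨k, p, d1, d2, d3, d4, d5, d6, d7, d8, d9⟩ := box_rel (θ := θ) (ψ := ψ) hL hn hn' hβ hq hC
    hδ hκ hκ₁ (fun l hl i j hij hj => by
      have h1 := rnum_le c1 hpos₃ ((h l hl).sub hs) hrc ((b3 l hl).sub c2) hij hj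
      rw [hxw j hj, hxw i (hij.trans hj)] at h1
      refine ⟨h1.1, h1.2.trans (le_of_eq ?_)⟩
      ring) (fun l hl i j k hij hjk hk =>
      rnum_sup c1 hpos₃ ((h l hl).sub hs) hrc ((b3 l hl).sub c2) hij hjk hk)
    (fun k hk hk' => ⟨fun i hi => by
      obtain ⟨η, hη⟩ := hrc i hi
      exact RNN.nn c1 hpos₃ hη ((hX k hk hk').exs.sub hs) (c3 k hk hk' i hi), fun i j hij hj => by
      obtain ⟨η, hη⟩ := hrc i (hij.trans hj)
      obtain ⟨η', hη'⟩ := hrc j hj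
      exact RNN.anti c1 hpos₃ (hmx i j hij hj).1 (hmx i j hij hj).2 hη hη'
        ((hX k hk hk').exs.sub hs) (c3 k hk hk' i (hij.trans hj)) (c3 k hk hk' j hj), by
      obtain ⟨η, hη⟩ := hrc 0 (Nat.zero_le _)
      exact (RNN.le c1 hpos₃ hη ((hX k hk hk').exs.sub hs) (c3 k hk hk' 0 (Nat.zero_le _))
        ((hXc k hk hk').sub hs)).2⟩) hB hnum hδ' hδq
  refine ⟨S₃, c1, hs, θ, ψ, k, p, fun l hl => (b3 l hl).sub c2, c3, hrc, d1, d2, d3, d4, d5,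
    fun i hi => ⟨(d6 i hi).1, ?_⟩, d7, d8, d9⟩
  rw [hxw _ (d6 i hi).1, (d6 i hi).2]

end

end Pool.AB62
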