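import Pool.Agent.H62.AB.Ipx
import Pool.Agent.H63.AB.Bxn
import Pool.Agent.H30.AB.Lsr
import Pool.Agent.H30.AB.Xg
import Pool.Agent.H28.AB.Uro
import Pool.Agent.H19.FLN.F1a
import Pool.Agent.H28.AB.Top

/-!
# The facts at the windows of a sub-box

`GrD`: the data on a grid of windows. `boxd_rel`: in a subclass there is a sub-box with the facts
`BoxD`, and with a small drop of the numbers of a quantity which depends on the scale. `boxd_ex`: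
without this quantity.
-/

set_option autoImplicit false

namespace Pool.AB62

open Finset Real MvPolynomial
open Pool.Agent.H49.Ent Pool.Agent.H32.Dense Pool.STK Pool.KA Pool.KSAT Pool.K2S Pool.PB Pool.S6C
open Pool.GEN Pool.RCD Pool.LA91 Pool.OWN83
open Pool.LP30 Pool.LPJ30 Pool.LPT30 Pool.LST30 Pool.XG30
open Pool.AB63 Pool.AB91

section

variable {m : ℕ}

/-- The near path over the labels of `b`, explicit digits. -/
noncomputable abbrev paG (m : ℕ) (c : ℕ → Fin m) (r : ℕ) (b : ℝ) (sn : ℕ → ℝ → ℝ) (A D : ℝ) :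
    Qt m (ℕ → ℕ → ℤ) :=
  paQ m c r b (fun l => sn l b) (fun l => sn l b + Pool.RJ28.dgj A D r l + 2 * D)
    (fun l => sn l b + Pool.RJ28.dgj A D r l + 2 * D - b)

/-- **The data on a grid of windows** `x 0 ≤ … ≤ x N` behind the window `b`. `K`: the orders; `X`: the
most digits behind the natural ones. -/
structure GrD (S : PCl m) (c : ℕ → Fin m) (r K : ℕ) (sn : ℕ → ℝ → ℝ) (G : Set ℝ)
    (a p b o ε μ A D X γ s : ℝ) (N : ℕ) (x : ℕ → ℝ) : Prop where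
  tm : ∃ C₀ : ℝ, TmC S C₀
  pos : ∀ (τ : ℝ) (J : ℕ) (F : Fam m J) (A : F.Ω → Prop), S.St τ J F A → 0 < Pe F.p A
  ch : ChG S c (r + 1) sn G
  tw : TwT S c r sn G (c (r + 1)) (sn (r + 1))
  cl : IsClosed G
  mn : ∀ l ≤ r, ∀ w ∈ G, ∀ v ∈ G, w ≤ v → sn l w ≤ sn l v
  xG : ∀ j ≤ N, x j ∈ G
  mono : ∀ i j, i ≤ j → j ≤ N → x i ≤ x j
  a0 : 0 ≤ a
  A0 : 0 ≤ A
  D0 : 0 < D
  ε0 : 0 ≤ ε
  μ0 : 0 ≤ μ
  X0 : 0 ≤ X
  εμ : ε + μ ≤ D / 4
  lin : LinG sn r G a p o ε μ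
  bG : b ∈ G
  bx : b ≤ x 0
  xo : x N ≤ o
  x1 : x N ≤ 1
  xb : x N ≤ b + D
  pb : p + (A + 4 * D) * 4 ^ r + D ≤ b
  room : 3 * ((A + 4 * D) * 4 ^ r) ≤ 1 - x N
  γ0 : 0 ≤ γ
  γs : γ < s
  RA : a * (x N - b) + X + s + ε ≤ A
  RK : (K + 2) * (x N - b) ≤ A
  deep : a * (x N - x 0) + X + s + ε ≤ x 0 - b

variable {S : PCl m} {c : ℕ → Fin m} {r K : ℕ} {sn : ℕ → ℝ → ℝ} {G : Set ℝ}
  {a p b o ε μ A D X γ s : ℝ} {N : ℕ} {x : ℕ → ℝ}

namespace GrD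

variable (g : GrD S c r K sn G a p b o ε μ A D X γ s N x)

include g

theorem sub {S' : PCl m} (hs : ∀ (τ : ℝ) (J : ℕ) (F : Fam m J) (A : F.Ω → Prop),
    S'.St τ J F A → S.St τ J F A) : GrD S' c r K sn G a p b o ε μ A D X γ s N x where
  tm := by
    obtain ⟨C₀, h⟩ := g.tm
    exact ⟨C₀, tmc_sub hs h⟩
  pos := fun τ J F A h => g.pos τ J F A (hs τ J F A h)
  ch := g.ch.sub hs
  tw := ⟨fun w hw j N => (g.tw.ex w hw j N).sub hs, g.tw.mono⟩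
  cl := g.cl
  mn := g.mn
  xG := g.xG
  mono := g.mono
  a0 := g.a0
  A0 := g.A0
  D0 := g.D0
  ε0 := g.ε0
  μ0 := g.μ0
  X0 := g.X0
  εμ := g.εμ
  lin := g.lin
  bG := g.bG
  bx := g.bx
  xo := g.xo
  x1 := g.x1
  xb := g.xb
  pb := g.pb
  room := g.room
  γ0 := g.γ0
  γs := g.γs
  RA := g.RA
  RK := g.RK
  deep := g.deep

theorem s0 : 0 < s := g.γ0.trans_lt g.γs

theorem bj {j : ℕ} (hj : j ≤ N) : b ≤ x j := g.bx.trans (g.mono 0 j (Nat.zero_le _) hj)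

theorem jN {j : ℕ} (hj : j ≤ N) : x j ≤ x N := g.mono j N hj le_rfl

theorem mb {j : ℕ} (hj : j ≤ N) : sn r b ≤ sn r (x j) :=
  g.mn r le_rfl b g.bG (x j) (g.xG j hj) (g.bj hj)

theorem pb' : p ≤ b := by
  have h1 := g.pb
  have h2 := g.A0
  have h3 := g.D0
  have : 0 ≤ (A + 4 * D) * 4 ^ r := by positivity
  linarith

theorem lsW : ∀ j ≤ N, LsW sn r (fun l => sn l b + Pool.RJ28.dgj A D r l + 2 * D)
    (fun l => sn l b + Pool.RJ28.dgj A D r l + 2 * D - b) (Pool.RJ28.dgj A D r) (D / 2) G A b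
    (x j) :=
  lsW_box g.A0 g.D0 g.ε0 g.μ0 g.εμ g.lin g.bG g.mn g.xG g.mono g.bx g.xo g.xb g.pb g.room

/-- The lists. -/
theorem fam {i : ℕ} (hi : (i : ℝ) ≤ a) :
    RFam S (fun J F => ptr F J) (fun _ F => F.T) N x (paG m c r b sn A D)
      (fun j => xL m c r i b sn ((a - i) * (x j - b)) s) (2 * a * Real.log 2)
      (Real.log 2 * (s + 3 * ε + a * μ)) := by
  obtain ⟨C₀, htm⟩ := g.tm
  have h1 := g.RA
  have h2 := g.deep
  have h3 := g.X0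
  have h4 : (a - i) * (x N - x 0) ≤ a * (x N - x 0) :=
    mul_le_mul_of_nonneg_right (by linarith [(Nat.cast_nonneg i : (0 : ℝ) ≤ i)])
      (by linarith [g.mono 0 N (Nat.zero_le _) le_rfl])
  exact rfam_box htm g.pos g.ch g.tw (fun J F => ⟨id, fun _ => rfl⟩) Pool.FLN19.kn_T g.cl g.mn g.xG
    g.mono g.A0 g.D0 g.ε0 g.μ0 g.εμ g.lin g.bG g.bx g.xo g.xb g.pb g.room hi g.s0
    (by linarith) (by linarith)

/-- A list of fixed digits. -/
theorem sin {i : ℕ} (hi : (i : ℝ) ≤ a) {B : ℝ} (hB : 0 ≤ B) (hBX : B ≤ X) :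
    RSin S (fun J F => ptr F J) (fun _ F => F.T) N x (paG m c r b sn A D) (xL m c r i b sn B s) ∧
    FewC S (fun J F => ptr F J) (vg (x 0)) (fun _ F => F.T) (paG m c r b sn A D)
      (xL m c r i b sn B s) (Real.log 2 * (2 * B + s + 3 * ε + a * μ)) := by
  obtain ⟨C₀, htm⟩ := g.tm
  have h1 := g.RA
  have h2 := g.deep
  have h4 : 0 ≤ a * (x N - x 0) := mul_nonneg g.a0
    (by linarith [g.mono 0 N (Nat.zero_le _) le_rfl])
  have h5 : 1 * (x 0 - b) ≤ (a - i + 1) * (x 0 - b) :=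
    mul_le_mul_of_nonneg_right (by linarith) (by linarith [g.bx])
  exact rsin_box htm g.pos g.ch g.tw (fun J F => ⟨id, fun _ => rfl⟩) Pool.FLN19.kn_T g.cl g.mn g.xG
    g.mono g.A0 g.D0 g.ε0 g.μ0 g.εμ g.lin g.bG g.bx g.xo g.xb g.pb g.room hi g.s0 hB
    (by linarith) (by linarith)

/-- Both jets: fewer digits, another precision. -/
theorem xgf {q : ℕ} (hq : q ≤ N) {l : ℕ} (hl : (l : ℝ) ≤ a) {γ₁ γ₂ D₁ D₂ : ℝ} (h1 : 0 ≤ γ₁)
    (h1s : γ₁ < s) (h2 : 0 ≤ γ₂) (h2s : γ₂ < s) (hD : 0 ≤ D₂) (hD' : D₂ ≤ D₁)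
    (hX : D₂ ≤ (a - l) * (x N - b) + X) :
    Few S (fun J F => ptr F J) (vg (x q)) (fun _ F => F.T)
      ((paG m c r b sn A D).prod (xg m c r b sn γ₁ s l D₁)) (xg m c r b sn γ₂ s l D₂) := by
  obtain ⟨C₀, htm⟩ := g.tm
  have e1 := g.RA
  have e2 := g.deep
  have e3 := g.jN hq
  have e4 := g.mono 0 q (Nat.zero_le _) hq
  have e5 := g.bj hq
  have e6 := abs_le.1 (g.lin.lu b g.bG (x q) (g.xG q hq) g.pb' e5 (e3.trans g.xo))
  have e7 : (l : ℝ) * (x q - b) ≤ l * (x N - b) :=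
    mul_le_mul_of_nonneg_left (by linarith) (Nat.cast_nonneg l)
  have e8 : (a - l) * (x N - b) + l * (x N - b) = a * (x N - b) := by ring
  refine xg_few htm g.pos g.ch (fun J F => ⟨id, fun _ => rfl⟩) Pool.FLN19.kn_T g.bG (g.xG q hq)
    (g.lsW q hq) (g.mb hq) h1 h1s h2 h2s hD hD' (by linarith) fun _ => ?_
  have e9 : (a - l) * (x N - x q) ≤ a * (x N - x 0) := by
    have g1 : (a - l) * (x N - x q) ≤ a * (x N - x q) :=
      mul_le_mul_of_nonneg_right (by linarith [(Nat.cast_nonneg l : (0 : ℝ) ≤ l)]) (by linarith)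
    have g2 : a * (x N - x q) ≤ a * (x N - x 0) := mul_le_mul_of_nonneg_left (by linarith) g.a0
    linarith
  have e10 : (a - l) * (x N - b) + (l - 1) * (x q - b) =
      (a - l) * (x N - x q) + a * (x q - b) - (x q - b) := by ring
  linarith [e6.1]

/-- The jets of the place `c r`: fewer digits. -/
theorem quf {q : ℕ} (hq : q ≤ N) {l : ℕ} {D₁ D₂ : ℝ} (hD : D₂ ≤ D₁)
    (hX : D₂ ≤ (a - l) * (x N - b) + X + s) :
    Few S (fun J F => ptr F J) (vg (x q)) (fun _ F => F.T)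
      ((paG m c r b sn A D).prod (qu m c r b sn l D₁)) (qu m c r b sn l D₂) := by
  obtain ⟨C₀, htm⟩ := g.tm
  have e1 := g.RA
  have e3 := g.jN hq
  have e7 : (l : ℝ) * (x q - b) ≤ l * (x N - b) :=
    mul_le_mul_of_nonneg_left (by linarith) (Nat.cast_nonneg l)
  have e8 : (a - l) * (x N - b) + l * (x N - b) = a * (x N - b) := by ring
  exact qu_few htm g.pos g.ch (fun J F => ⟨id, fun _ => rfl⟩) Pool.FLN19.kn_T (g.xG q hq)
    (g.lsW q hq) hD (by linarith [g.ε0])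

/-- The natural digits of the place `c r`. -/
theorem nu {q : ℕ} (hq : q ≤ N) {l : ℕ} {D' c' : ℝ} (hD : D' ≤ (a - l) * (x q - b))
    (hc : ε * Real.log 2 ≤ c') : Fcx S (x q) (paG m c r b sn A D) (qu m c r b sn l D') c' := by
  obtain ⟨C₀, htm⟩ := g.tm
  have e1 := g.RA
  have e2 := g.X0
  have e3 := g.jN hq
  have e4 : a * (x q - b) ≤ a * (x N - b) := mul_le_mul_of_nonneg_left (by linarith) g.a0
  have h1 := qu_nat htm g.pos g.ch (fun J F => ⟨id, fun _ => rfl⟩) Pool.FLN19.kn_T (g.xG q hq)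
    (g.lsW q hq) g.lin g.bG g.pb' (e3.trans g.xo) (g.mb hq) (by linarith [g.s0]) (i := l)
    (D := D' - ε) (by linarith)
  have h2 : Fcx S (x q) (paG m c r b sn A D) (qu m c r b sn l (D' - ε)) 0 := Few.fewC h1
  exact h2.dg htm (g' := ε) (by linarith) g.ε0 (by linarith)

/-- The natural digits of the place `c (r + 1)`. -/
theorem nn {q : ℕ} (hq : q ≤ N) {l : ℕ} (hl : l ≤ K + 2) {D' c' : ℝ}
    (hD : D' ≤ (a - l) * (x q - b)) (hc : (a * μ + 2 * ε + γ) * Real.log 2 ≤ c') :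
    Fcx S (x q) (paG m c r b sn A D) (qn m c r b sn γ l D') c' := by
  obtain ⟨C₀, htm⟩ := g.tm
  have e1 := g.RA
  have e2 := g.X0
  have e3 := g.jN hq
  have e5 := g.bj hq
  have e4 : a * (x q - b) ≤ a * (x N - b) := mul_le_mul_of_nonneg_left (by linarith) g.a0
  have e6 : (l : ℝ) * (x q - b) ≤ A := by
    refine le_trans ?_ g.RK
    have h1 : (l : ℝ) ≤ K + 2 := by exact_mod_cast hl
    exact mul_le_mul h1 (by linarith) (by linarith) (by positivity)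
  have e7 : 0 ≤ a * μ := mul_nonneg g.a0 g.μ0
  have h1 := qn_nat htm g.pos g.ch g.tw (fun J F => ⟨id, fun _ => rfl⟩) Pool.FLN19.kn_T g.cl g.mn
    (g.xG q hq) (g.lsW q hq) g.lin g.bG g.pb' (e3.trans g.xo) g.a0 g.ε0 g.μ0 g.γ0
    (by linarith [g.s0]) (i := l) e6 (D := D' - (a * μ + 2 * ε + γ)) (by linarith)
  have h2 : Fcx S (x q) (paG m c r b sn A D) (qn m c r b sn γ l (D' - (a * μ + 2 * ε + γ))) 0 :=
    Few.fewC h1
  exact h2.dg htm (g' := a * μ + 2 * ε + γ) (by linarith) (by linarith [g.ε0, g.γ0]) (by linarith)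

/-- No digits. -/
theorem zu {q : ℕ} {l : ℕ} {D' c' : ℝ} (hD : D' ≤ 0) (hc : 0 ≤ c') :
    Fcx S (x q) (paG m c r b sn A D) (qu m c r b sn l D') c' := by
  obtain ⟨C₀, htm⟩ := g.tm
  have h1 := qu_zero (f := fun J (F : Fam m J) => ptr F J) (g := vg (x q)) (y := fun _ F => F.T) htm
    g.pos g.ch g.bG (l := l) hD (paG m c r b sn A D)
  exact (Few.fewC h1).mono hc

theorem zn {q : ℕ} {l : ℕ} {D' c' : ℝ} (hD : D' ≤ 0) (hc : γ * Real.log 2 ≤ c') :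
    Fcx S (x q) (paG m c r b sn A D) (qn m c r b sn γ l D') c' := by
  obtain ⟨C₀, htm⟩ := g.tm
  have h1 := qn_zero (γ := γ) (f := fun J (F : Fam m J) => ptr F J) (g := vg (x q))
    (y := fun _ F => F.T) htm g.pos g.ch g.bG (l := l) (D := D' - γ) (by linarith)
    (paG m c r b sn A D)
  have h2 : Fcx S (x q) (paG m c r b sn A D) (qn m c r b sn γ l (D' - γ)) 0 := Few.fewC h1
  exact h2.dg htm (g' := γ) (by linarith) g.γ0 (by linarith)

/-- The number of both jets from the number of the list. -/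
theorem rnx {q : ℕ} (hq : q ≤ N) {l : ℕ} (hl : (l : ℝ) ≤ a) {D' θ : ℝ} (hD : 0 ≤ D')
    (hX : D' ≤ (a - l) * (x N - b) + X)
    (h : RNN S (fun J F => ptr F J) (vg (x q)) (fun _ F => F.T) (paG m c r b sn A D)
      (xL m c r l b sn D' s) θ) :
    RNN S (fun J F => ptr F J) (vg (x q)) (fun _ F => F.T) (paG m c r b sn A D)
      (xg m c r b sn γ s l D') θ := by
  have h1 := g.xgf hq hl (γ₁ := 0) (γ₂ := γ) le_rfl g.s0 g.γ0 g.γs hD le_rfl hX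
  have h2 := g.xgf hq hl (γ₁ := γ) (γ₂ := 0) g.γ0 g.γs le_rfl g.s0 hD le_rfl hX
  rw [xg_eq] at h1 h2
  exact rnn_eqv g.pos h h1 h2 (xL_exs g.ch g.tw g.bG l D' s)

end GrD

/-! ### The sub-box -/

/-- **The facts at the windows of a sub-box.** `Qx k`: a quantity for each scale `k`. `e₁`: the errors
of the rates of the place `c r`. -/
theorem boxd_rel (hS : S.Ne) {M₀ : ℝ}
    (hM : Bas S (fun J F A => (cnt F.p (fun ω => ptr F J ω) A : ℝ) ≤ Real.exp (M₀ * J)))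
    {L n n' β kt : ℕ} {t q η κ₁ B e₁ : ℝ} {φ : ℕ → ℝ} {Ux : ℕ → Type} {Qx : ∀ k, Qt m (Ux k)}
    (g : GrD S c r K sn G a p b o ε μ A D X γ s (L ^ n) x) (hL : 1 ≤ L) (hn : 1 ≤ n')
    (hn' : n' ≤ n) (hβ : 4 * β ≤ L ^ (n - n')) (hq : 0 < q) (htq : t + q ≤ 1) (hη : 0 < η)
    (hη1 : η ≤ 1) (hκ₁ : 0 < κ₁) (hxw : ∀ i ≤ L ^ n, x i = t + (i / (L : ℝ) ^ n) * q)
    (hkt : (kt : ℝ) ≤ a)
    (hX : ∀ k, 1 ≤ k → k ≤ n → RSin S (fun J F => ptr F J) (fun _ F => F.T) (L ^ n) x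
      (paG m c r b sn A D) (Qx k))
    (hXc : ∀ k, 1 ≤ k → k ≤ n → FewC S (fun J F => ptr F J) (vg (x 0)) (fun _ F => F.T)
      (paG m c r b sn A D) (Qx k) (B * (q / (L : ℝ) ^ k)))
    (hB : B ≤ κ₁ * β) (hnum : 8 * (kt * (2 * a * Real.log 2 + 1)) * L ≤ η * n')
    (hsm : 12 * ((L + 1) * (kt + 1)) * (s + 3 * ε + a * μ + γ) ≤ η * (q / (L : ℝ) ^ n))
    (he₁ : e₁ ≤ η * (q / (L : ℝ) ^ n))
    (hvf : ∀ l, 1 ≤ l → l ≤ kt → ∀ i j, i ≤ j → j ≤ L ^ n →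
      Fcx S (x i) (paG m c r b sn A D) (qu m c r b sn l ((a - l) * (x j - b)))
        (φ l * (x j - x i) + e₁))
    (hva : ∀ l, 1 ≤ l → l ≤ kt → ∀ i j, i ≤ j → j ≤ L ^ n →
      Alx S (x i) (paG m c r b sn A D) (qu m c r b sn l ((a - l) * (x j - b)))
        ((φ l - φ (l + 1)) * (x j - x i) - e₁)) :
    ∃ S' : PCl m, S'.Ne ∧
      (∀ (τ : ℝ) (J : ℕ) (F : Fam m J) (A : F.Ω → Prop), S'.St τ J F A → S.St τ J F A) ∧
      ∃ (θ : ℕ → ℕ → ℕ → ℝ) (ψ : ℕ → ℕ → ℝ) (k P : ℕ),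
        RcNums S' (fun J F => ptr F J) (L ^ n) x ∧
        (∀ k', 1 ≤ k' → k' ≤ n → SNums S' (fun J F => ptr F J) (fun _ F => F.T) (L ^ n) x
          (paG m c r b sn A D) (Qx k') (ψ k')) ∧
        1 ≤ k ∧ n - n' < k ∧ k ≤ n ∧ L ∣ P ∧ P + L ≤ L ^ k ∧
        (∀ i ≤ L, (P + i) * L ^ (n - k) ≤ L ^ n ∧
          x ((P + i) * L ^ (n - k)) = t + ((P + i : ℕ) / (L : ℝ) ^ k) * q) ∧
        BoxD S' c r K kt a b sn γ s (paG m c r b sn A D)
          (fun i => t + ((P + i : ℕ) / (L : ℝ) ^ k) * q) L (q / (L : ℝ) ^ k) η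
          θ φ ∧
        ∀ i j : ℕ, i ≤ j → j ≤ L → ψ k ((P + i) * L ^ (n - k)) ≤
          ψ k ((P + j) * L ^ (n - k)) + κ₁ * (q / (L : ℝ) ^ k) := by
  have hL0 : (0 : ℝ) < L := by exact_mod_cast hL
  have hL1 : (1 : ℝ) ≤ L := by exact_mod_cast hL
  have hLn : (0 : ℝ) < (L : ℝ) ^ n := by positivity
  have hl2 : 0 < Real.log 2 := Real.log_pos one_lt_two
  have hl21 : Real.log 2 ≤ 1 := by
    have := Real.log_two_lt_d9
    linarith
  have ha := g.a0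
  have hs0 := g.s0
  have hε0 := g.ε0
  have hμ0 := g.μ0
  have hγ0 := g.γ0
  have haμ : 0 ≤ a * μ := mul_nonneg ha hμ0
  obtain ⟨σ, hσ⟩ : ∃ σ : ℝ, σ = s + 3 * ε + a * μ := ⟨_, rfl⟩
  have hσ0 : 0 ≤ σ := by rw [hσ]; linarith
  obtain ⟨δ, hδ⟩ : ∃ δ : ℝ, δ = Real.log 2 * (s + 3 * ε + a * μ) := ⟨_, rfl⟩
  have hδ0 : 0 ≤ δ := by
    rw [hδ, ← hσ]
    positivity
  have hδσ : δ ≤ σ := by
    rw [hδ, ← hσ]
    exact mul_le_of_le_one_left hσ0 hl21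
  have hkt0 : (0 : ℝ) ≤ kt := Nat.cast_nonneg kt
  have hqn : 0 < q / (L : ℝ) ^ n := by positivity
  have hLk : (1 : ℝ) ≤ (L + 1) * (kt + 1) := by nlinarith
  rw [← hσ] at hsm
  have hsm1 : σ + γ ≤ η * (q / (L : ℝ) ^ n) := by
    have h1 : 1 * (σ + γ) ≤ 12 * ((L + 1) * (kt + 1)) * (σ + γ) :=
      mul_le_mul_of_nonneg_right (by linarith) (by linarith)
    linarith
  have hqnq : q / (L : ℝ) ^ n ≤ q := div_le_self hq.le (one_le_pow₀ hL1)
  have hδq : δ ≤ q := by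
    have h1 : η * (q / (L : ℝ) ^ n) ≤ 1 * (q / (L : ℝ) ^ n) :=
      mul_le_mul_of_nonneg_right hη1 hqn.le
    linarith
  have hδ' : 2 * ((3 * L + 3) * (kt * (δ * (L : ℝ) ^ n))) ≤ η / 2 * q := by
    have h1 : (kt : ℝ) * δ ≤ (kt + 1) * (σ + γ) := by
      have h2 : (kt : ℝ) * δ ≤ kt * (σ + γ) := mul_le_mul_of_nonneg_left (by linarith) hkt0
      linarith
    have h2 : 12 * ((L + 1) * ((kt + 1) * (σ + γ))) ≤ η * (q / (L : ℝ) ^ n) := by
      have e1 : 12 * ((L + 1) * (((kt : ℝ) + 1) * (σ + γ))) =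
        12 * ((L + 1) * (kt + 1)) * (σ + γ) := by ring
      rw [e1]
      exact hsm
    have h3 : 12 * ((L + 1) * (kt * δ)) ≤ η * (q / (L : ℝ) ^ n) := by
      have := mul_le_mul_of_nonneg_left h1 (show (0 : ℝ) ≤ 12 * (L + 1) by linarith)
      linarith
    have h4 := mul_le_mul_of_nonneg_right h3 hLn.le
    have h5 : η * (q / (L : ℝ) ^ n) * (L : ℝ) ^ n = η * q := by
      field_simp
    rw [h5] at h4
    have h6 : 2 * ((3 * L + 3) * (kt * (δ * (L : ℝ) ^ n))) =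
        12 * ((L + 1) * (kt * δ)) * (L : ℝ) ^ n / 2 := by ring
    rw [h6]
    linarith
  obtain ⟨S', hS', hs, θ, ψ, k, P, b1, b2, b3, b4, b5, b6, b7, b8, b9, -, c2, c3⟩ :=
    num_rel (f := fun J (F : Fam m J) => ptr F J) (y := fun _ (F : Fam m _) => F.T)
      (Qp := paG m c r b sn A D) (x := x) (C := 2 * a * Real.log 2) (δ := δ) hS g.pos hM
      (U := fun _ => ℤ × ℤ)
      (Q := fun l j => xL m c r (l + 1) b sn ((a - (l + 1 : ℕ)) * (x j - b)) s) (Qx := Qx)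
      (nl := kt) (κ₀ := η / 2) (κ₁ := κ₁) hL hn hn' hβ hq htq (by positivity) hδ0 (by linarith)
      hκ₁ hxw (fun l hl => by
        rw [hδ]
        exact g.fam (by
          have : ((l + 1 : ℕ) : ℝ) ≤ kt := by exact_mod_cast hl
          linarith)) hX hXc hB (by linarith) hδ' hδq
  have g' := g.sub hs
  have hxk : ∀ i ≤ L, (P + i) * L ^ (n - k) ≤ L ^ n ∧
      x ((P + i) * L ^ (n - k)) = t + ((P + i : ℕ) / (L : ℝ) ^ k) * q := b9
  obtain ⟨I, hI⟩ : ∃ I : ℕ → ℕ, I = fun i => (P + i) * L ^ (n - k) := ⟨_, rfl⟩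
  have hIe : ∀ i, (P + i) * L ^ (n - k) = I i := fun i => by rw [hI]
  have hIm : ∀ i j, i ≤ j → I i ≤ I j := fun i j h => by
    rw [hI]
    exact Nat.mul_le_mul_right _ (by omega)
  have hIN : ∀ i ≤ L, I i ≤ L ^ n := fun i hi => by
    rw [← hIe]
    exact (hxk i hi).1
  have hIx : ∀ i ≤ L, t + ((P + i : ℕ) / (L : ℝ) ^ k) * q = x (I i) := fun i hi => by
    rw [← hIe]
    exact (hxk i hi).2.symm
  obtain ⟨u, hu⟩ : ∃ u : ℝ, u = q / (L : ℝ) ^ k := ⟨_, rfl⟩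
  have hu0 : 0 < u := by
    rw [hu]
    positivity
  have hun : q / (L : ℝ) ^ n ≤ u := by
    rw [hu]
    exact div_le_div_of_nonneg_left hq.le (by positivity) (pow_le_pow_right₀ hL1 b6)
  have hηu : η * (q / (L : ℝ) ^ n) ≤ η * u := mul_le_mul_of_nonneg_left hun hη.le
  have hηu0 : 0 < η * u := by positivity
  have hlog : ∀ v : ℝ, 0 ≤ v → v ≤ σ + γ → v * Real.log 2 ≤ η * u := fun v hv hv' => by
    have h1 : v * Real.log 2 ≤ v := mul_le_of_le_one_right hv hl21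
    linarith
  -- the numbers of both jets
  have hnum' : ∀ l, 1 ≤ l → l ≤ kt → ∀ i j, i ≤ j → j ≤ L →
      RNN S' (fun J F => ptr F J) (vg (x (I i))) (fun _ F => F.T) (paG m c r b sn A D)
        (xg m c r b sn γ s l ((a - l) * (x (I j) - b))) (θ (l - 1) (I i) (I j)) := by
    intro l h1 h2 i j hij hj
    have h3 := b1 (l - 1) (by omega) (I i) (I j) (hIm i j hij) (hIN j hj)
    have e1 : l - 1 + 1 = l := by omega
    simp only [e1] at h3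
    have hla : (l : ℝ) ≤ a := by
      have : (l : ℝ) ≤ kt := by exact_mod_cast h2
      linarith
    refine g'.rnx (hIN i (hij.trans hj)) hla
      (mul_nonneg (by linarith) (by linarith [g.bj (hIN j hj)])) ?_ h3
    have h4 := g.X0
    have h5 : (a - l) * (x (I j) - b) ≤ (a - l) * (x (L ^ n) - b) :=
      mul_le_mul_of_nonneg_left (by linarith [g.jN (hIN j hj)]) (by linarith)
    linarith
  have hrc : ∀ i ≤ L, ∃ η', RNum S' (fun J (F : Fam m J) => ptr F J) (vg (x (I i))) η' :=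
    fun i hi => b3 (I i) (hIN i hi)
  have hla : ∀ l, l ≤ kt → (l : ℝ) ≤ a := fun l hl => by
    have : (l : ℝ) ≤ kt := by exact_mod_cast hl
    linarith
  refine ⟨S', hS', hs, fun l i j => θ (l - 1) (I i) (I j), ψ, k, P, b3, b2, b4, b5, b6, b7, b8,
    b9, ?_, fun i j hij hj => (c3 i j hij hj).2⟩
  rw [← hu]
  refine
    { tm := g'.tm
      u0 := hu0
      s0 := hs0.le
      s1 := by linarith
      xs := fun i _ => ?_
      x1 := ?_
      exu := fun l _ D' => qu_exs g'.ch g'.bG l D'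
      exn := fun l _ D' => qn_exs g'.tw g'.bG hγ0 l D'
      nu := fun i hi l hl D' hD => ?_
      nn := fun i hi l hl D' hD => ?_
      zu := fun i hi l _ D' hD => ?_
      zn := fun i hi l _ D' hD => ?_
      rf := fun l h1 h2 i j hij hj => ?_
      ra := fun l h1 h2 i j hij hj => ?_
      ad := fun l h1 h2 i j j' hij hjj hj => ?_
      ip := fun l h1 h2 i j j' hij hjj hj => ?_
      vf := fun l h1 h2 i j hij hj => ?_
      va := fun l h1 h2 i j hij hj => ?_ }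
  · show t + ((P + i : ℕ) / (L : ℝ) ^ k) * q = t + ((P + 0 : ℕ) / (L : ℝ) ^ k) * q + i * u
    rw [hu]
    push_cast
    ring
  · rw [hIx L le_rfl]
    exact (g.jN (hIN L le_rfl)).trans g.x1
  · rw [hIx i hi] at hD ⊢
    exact g'.nu (hIN i hi) hD (hlog ε hε0 (by linarith))
  · rw [hIx i hi] at hD ⊢
    exact g'.nn (hIN i hi) hl hD (hlog _ (by linarith) (by linarith))
  · rw [hIx i hi]
    exact g'.zu hD hηu0.le
  · rw [hIx i hi]
    exact g'.zn hD (hlog γ hγ0 (by linarith))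
  · rw [hIx i (hij.trans hj), hIx j hj]
    obtain ⟨η', hη'⟩ := hrc i (hij.trans hj)
    exact RNN.fewC g'.pos hη' (hnum' l h1 h2 i j hij hj)
  · rw [hIx i (hij.trans hj), hIx j hj]
    obtain ⟨η', hη'⟩ := hrc i (hij.trans hj)
    obtain ⟨e₂, he₂, H⟩ := RNN.alF g'.pos hη' (hnum' l h1 h2 i j hij hj) hηu0
    exact ⟨e₂, he₂, H e₂ le_rfl⟩
  · have h3 := (c2 (l - 1) (by omega) i j j' hij hjj hj).2
    rw [hIe, hIe, hIe, ← hu] at h3
    have h4 : η / 2 * u ≤ η * u := by linarith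
    linarith
  · rw [hIx i (hij.trans (hjj.trans hj)), hIx j (hjj.trans hj), hIx j' hj]
    have h3 := (c2 (l - 1) (by omega) i j j' hij hjj hj).2
    rw [hIe, hIe, hIe, ← hu] at h3
    have hlk := hla l h2
    have e1 : (a - l) * (x (I j) - b) ≤ (a - l) * (x (I j') - b) :=
      mul_le_mul_of_nonneg_left (by
        linarith [g.mono (I j) (I j') (hIm j j' hjj) (hIN j' hj)]) (by linarith)
    refine ipx_num (κ := η / 2 * u) g'.pos (hnum' l h1 h2 i j' (hij.trans hjj) hj)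
      (hnum' l h1 h2 i j hij (hjj.trans hj)) (hnum' l h1 h2 j j' hjj hj)
      (hrc j (hjj.trans hj)) ?_ h3 (by linarith)
    refine g'.xgf (hIN i (hij.trans (hjj.trans hj))) hlk hγ0 g.γs hγ0 g.γs
      (mul_nonneg (by linarith) (by linarith [g.bj (hIN j (hjj.trans hj))])) e1 ?_
    have h4 := g.X0
    have h5 : (a - l) * (x (I j) - b) ≤ (a - l) * (x (L ^ n) - b) :=
      mul_le_mul_of_nonneg_left (by linarith [g.jN (hIN j (hjj.trans hj))]) (by linarith)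
    linarith
  · rw [hIx i (hij.trans hj), hIx j hj]
    exact ((hvf l h1 h2 (I i) (I j) (hIm i j hij) (hIN j hj)).sub hs).mono (by linarith)
  · rw [hIx i (hij.trans hj), hIx j hj]
    exact ((hva l h1 h2 (I i) (I j) (hIm i j hij) (hIN j hj)).sub hs).mono (by linarith)

/-- **The facts at the windows of a sub-box**, no further quantity: for slopes which are no integers. -/
theorem boxd_ex (hS : S.Ne) {M₀ : ℝ}
    (hM : Bas S (fun J F A => (cnt F.p (fun ω => ptr F J ω) A : ℝ) ≤ Real.exp (M₀ * J)))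
    {L n n' kt : ℕ} {t q η e₁ : ℝ} {φ : ℕ → ℝ}
    (g : GrD S c r K sn G a p b o ε μ A D X γ s (L ^ n) x) (hL : 1 ≤ L) (hn : 1 ≤ n')
    (hn' : n' ≤ n) (hq : 0 < q) (htq : t + q ≤ 1) (hη : 0 < η)
    (hη1 : η ≤ 1) (hxw : ∀ i ≤ L ^ n, x i = t + (i / (L : ℝ) ^ n) * q) (hkt : (kt : ℝ) ≤ a)
    (hnum : 8 * (kt * (2 * a * Real.log 2 + 1)) * L ≤ η * n')
    (hsm : 12 * ((L + 1) * (kt + 1)) * (s + 3 * ε + a * μ + γ) ≤ η * (q / (L : ℝ) ^ n))
    (he₁ : e₁ ≤ η * (q / (L : ℝ) ^ n))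
    (hvf : ∀ l, 1 ≤ l → l ≤ kt → ∀ i j, i ≤ j → j ≤ L ^ n →
      Fcx S (x i) (paG m c r b sn A D) (qu m c r b sn l ((a - l) * (x j - b)))
        (φ l * (x j - x i) + e₁))
    (hva : ∀ l, 1 ≤ l → l ≤ kt → ∀ i j, i ≤ j → j ≤ L ^ n →
      Alx S (x i) (paG m c r b sn A D) (qu m c r b sn l ((a - l) * (x j - b)))
        ((φ l - φ (l + 1)) * (x j - x i) - e₁)) :
    ∃ S' : PCl m, S'.Ne ∧
      (∀ (τ : ℝ) (J : ℕ) (F : Fam m J) (A : F.Ω → Prop), S'.St τ J F A → S.St τ J F A) ∧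
      ∃ (θ : ℕ → ℕ → ℕ → ℝ) (k P : ℕ), 1 ≤ k ∧ n - n' < k ∧ k ≤ n ∧ L ∣ P ∧ P + L ≤ L ^ k ∧
        BoxD S' c r K kt a b sn γ s (paG m c r b sn A D)
          (fun i => t + ((P + i : ℕ) / (L : ℝ) ^ k) * q) L (q / (L : ℝ) ^ k) η θ φ := by
  have fam0 := g.fam (i := 0) (by rw [Nat.cast_zero]; exact g.a0)
  have hpp := fun i (hi : i ≤ L ^ n) => fam0.pp i hi
  have hex : Exs S (paG m c r b sn A D) := exs_fst (fam0.exs 0 (Nat.zero_le _))
  obtain ⟨S', h1, h2, θ, ψ, k, P, -, -, h3, h4, h5, h6, h7, -, h8, -⟩ :=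
    boxd_rel (t := t) (q := q) (β := 0) (κ₁ := 1) (B := 0) (Ux := fun _ => ℕ → ℕ → ℤ)
      (Qx := fun _ => paG m c r b sn A D) hS hM g hL hn hn' (by simp) hq htq hη hη1 one_pos hxw
      hkt (fun k _ _ => ⟨hex.prod hex, hpp, fun i hi => Few.fst g.pos (hpp i hi)⟩)
      (fun k _ _ => by
        rw [zero_mul]
        exact Few.fewC (hpp 0 (Nat.zero_le _))) (by simp) hnum hsm he₁ hvf hva
  exact ⟨S', h1, h2, θ, k, P, h3, h4, h5, h6, h7, h8⟩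

/-- **The facts at the windows of a sub-box with the order** `kt + 1`. -/
structure BoxN (E : ℕ) (CF εt εh : ℝ) {m : ℕ} (S : PCl m) (c : ℕ → Fin m)
    (r K kt : ℕ) (a b : ℝ) (sn : ℕ → ℝ → ℝ) (γ s : ℝ) {U : Type} (Qp : Qt m U) (x : ℕ → ℝ) (N : ℕ)
    (u η : ℝ) (θ : ℕ → ℕ → ℕ → ℝ) (φ : ℕ → ℝ) : Prop
    extends BoxD S c r K kt a b sn γ s Qp x N u η θ φ where
  dp : CF * (E * u) + s ≤ x 0 - b
  ipF : ∀ i j, i ≤ j → j ≤ N → Ipx S (x i) (x j) Qp (xg m c r b sn γ s (kt + 1) (CF * (E * u)))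
    (xg m c r b sn γ s (kt + 1) 0) (η * u)
  ipS : ∀ i j, i ≤ j → j ≤ N → Ipx S (x i) (x j) Qp
    (xg m c r b sn γ s (kt + 1) (εt * (CF * (E * u)))) (xg m c r b sn γ s (kt + 1) 0) (η * u)
  n1 : ∀ i ≤ N, ∃ ψ : ℝ, Fcx S (x i) Qp (qu m c r b sn (kt + 1) (εt * (CF * (E * u)) + s)) ψ ∧
    Alx S (x i) Qp (qu m c r b sn (kt + 1) (εt * (CF * (E * u)) + s)) (ψ - η * u)
  n2 : ∀ i ≤ N, ∃ ψ : ℝ,
    Fcx S (x i) Qp (xg m c r b sn γ s (kt + 1) (εh * (εt * (CF * (E * u))))) ψ ∧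
    Alx S (x i) Qp (xg m c r b sn γ s (kt + 1) (εh * (εt * (CF * (E * u))))) (ψ - η * u)

/-- With the ties and the hops of the order `kt + 1`. -/
theorem BoxN.boxA {E M0 : ℕ} {CF εt εh : ℝ} {dt dh : ℝ → ℝ} {m : ℕ} {S : PCl m} {c : ℕ → Fin m}
    {r K kt : ℕ} {a b : ℝ} {sn : ℕ → ℝ → ℝ} {γ s : ℝ} {U : Type} {Qp : Qt m U} {x : ℕ → ℝ} {N : ℕ}
    {u η : ℝ} {θ : ℕ → ℕ → ℕ → ℝ} {φ : ℕ → ℝ}
    (B : BoxN E CF εt εh S c r K kt a b sn γ s Qp x N u η θ φ)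
    (tie : ∀ n, M0 * E ≤ n → n ≤ N → ∀ al : ℝ, 0 < al → TieB S c r K a b sn γ s Qp (kt + 1)
      (x (n - M0 * E)) (x n) (a * (CF * (E * u) / a)) εt (CF * (E * u) / a) al (dt al))
    (hop : ∀ n, M0 * E ≤ n → n ≤ N → ∀ al : ℝ, 0 < al → HopB S c r K a b sn γ s Qp (kt + 1)
      (x (n - M0 * E)) (x n) (a * (εt * (CF * (E * u)) / a)) εh (εt * (CF * (E * u)) / a) al
      (dh al)) : BoxA E M0 CF εt εh dt dh S c r K kt a b sn γ s Qp x N u η θ φ :=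
  { toBoxD := B.toBoxD
    dp := B.dp
    ipF := B.ipF
    ipS := B.ipS
    n1 := B.n1
    n2 := B.n2
    tie := tie
    hop := hop }

/-- **The facts at the windows of a sub-box with the order** `kt + 1 = a`: integer slopes. `E`, `CF`,
`εt`, `εh`: the digits; `β`: the number of the cells of one scale which may be bad. -/
theorem boxn_ex (hS : S.Ne) {M₀ : ℝ}
    (hM : Bas S (fun J F A => (cnt F.p (fun ω => ptr F J ω) A : ℝ) ≤ Real.exp (M₀ * J)))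
    {L n n' β kt E : ℕ} {t q η e₁ CF εt εh : ℝ} {φ : ℕ → ℝ}
    (g : GrD S c r K sn G a p b o ε μ A D X γ s (L ^ n) x) (hL : 1 ≤ L) (hn : 1 ≤ n')
    (hn' : n' ≤ n) (hβ : 4 * β ≤ L ^ (n - n')) (hq : 0 < q) (htq : t + q ≤ 1) (hη : 0 < η)
    (hη1 : η ≤ 1) (hxw : ∀ i ≤ L ^ n, x i = t + (i / (L : ℝ) ^ n) * q) (hkt : a = kt + 1)
    (hCF : 0 ≤ CF) (hεt : 0 ≤ εt) (hεt1 : εt ≤ 1) (hεh : 0 ≤ εh) (hεh1 : εh ≤ 1)
    (hCX : CF * (E * q) ≤ X) (hB : 2 * (2 * (CF * E) + 1) ≤ η * β)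
    (hnum : 8 * (kt * (2 * a * Real.log 2 + 1)) * L ≤ η * n')
    (hsm : 12 * ((L + 1) * (kt + 1)) * (s + 3 * ε + a * μ + γ) ≤ η * (q / (L : ℝ) ^ n))
    (he₁ : e₁ ≤ η * (q / (L : ℝ) ^ n))
    (hvf : ∀ l, 1 ≤ l → l ≤ kt → ∀ i j, i ≤ j → j ≤ L ^ n →
      Fcx S (x i) (paG m c r b sn A D) (qu m c r b sn l ((a - l) * (x j - b)))
        (φ l * (x j - x i) + e₁))
    (hva : ∀ l, 1 ≤ l → l ≤ kt → ∀ i j, i ≤ j → j ≤ L ^ n →
      Alx S (x i) (paG m c r b sn A D) (qu m c r b sn l ((a - l) * (x j - b)))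
        ((φ l - φ (l + 1)) * (x j - x i) - e₁)) :
    ∃ S' : PCl m, S'.Ne ∧
      (∀ (τ : ℝ) (J : ℕ) (F : Fam m J) (A : F.Ω → Prop), S'.St τ J F A → S.St τ J F A) ∧
      ∃ (θ : ℕ → ℕ → ℕ → ℝ) (k P : ℕ), 1 ≤ k ∧ n - n' < k ∧ k ≤ n ∧ L ∣ P ∧ P + L ≤ L ^ k ∧
        BoxN E CF εt εh S' c r K kt a b sn γ s (paG m c r b sn A D)
          (fun i => t + ((P + i : ℕ) / (L : ℝ) ^ k) * q) L (q / (L : ℝ) ^ k) η θ φ := by
  have hL1 : (1 : ℝ) ≤ L := by exact_mod_cast hL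
  have hl2 : 0 < Real.log 2 := Real.log_pos one_lt_two
  have hl21 : Real.log 2 ≤ 1 := by
    have := Real.log_two_lt_d9
    linarith
  have hkt0 : (0 : ℝ) ≤ kt := Nat.cast_nonneg kt
  have hE0 : (0 : ℝ) ≤ E := Nat.cast_nonneg E
  have hcast : ((kt + 1 : ℕ) : ℝ) = a := by
    rw [hkt]
    push_cast
    ring
  have hla : ((kt + 1 : ℕ) : ℝ) ≤ a := hcast.le
  have hs0 := g.s0
  have hγ0 := g.γ0
  have hε0 := g.ε0
  have haμ : 0 ≤ a * μ := mul_nonneg g.a0 g.μ0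
  have h0N := g.mono 0 (L ^ n) (Nat.zero_le _) le_rfl
  -- the digits
  obtain ⟨DF, hDF⟩ : ∃ DF : ℕ → ℝ, DF = fun k => CF * (E * (q / (L : ℝ) ^ k)) := ⟨_, rfl⟩
  have hDFk : ∀ k, CF * (E * (q / (L : ℝ) ^ k)) = DF k := fun k => by rw [hDF]
  have hDF0 : ∀ k, 0 ≤ DF k := fun k => by
    rw [hDF]
    positivity
  have hDFX : ∀ k, DF k ≤ X := fun k => by
    rw [hDF]
    refine le_trans (mul_le_mul_of_nonneg_left (mul_le_mul_of_nonneg_left
      (div_le_self hq.le (one_le_pow₀ hL1)) hE0) hCF) hCX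
  have hDS0 : ∀ k, 0 ≤ εt * DF k := fun k => mul_nonneg hεt (hDF0 k)
  have hDS : ∀ k, εt * DF k ≤ DF k := fun k => mul_le_of_le_one_left (hDF0 k) hεt1
  have hD20 : ∀ k, 0 ≤ εh * (εt * DF k) := fun k => mul_nonneg hεh (hDS0 k)
  have hD2 : ∀ k, εh * (εt * DF k) ≤ εt * DF k := fun k => mul_le_of_le_one_left (hDS0 k) hεh1
  have hz : (a - ((kt + 1 : ℕ) : ℝ)) * (x (L ^ n) - b) = 0 := by
    rw [hcast, sub_self, zero_mul]
  have fam0 := g.fam (i := 0) (by rw [Nat.cast_zero]; exact g.a0)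
  have hpp := fun i (hi : i ≤ L ^ n) => fam0.pp i hi
  have hex : Exs S (paG m c r b sn A D) := exs_fst (fam0.exs 0 (Nat.zero_le _))
  -- the numbers of the fixed quantities
  obtain ⟨S₁, a1, a2, ψ₁, a3⟩ := snum_all (f := fun J (F : Fam m J) => ptr F J)
    (y := fun _ (F : Fam m _) => F.T) (N := L ^ n) (x := x) (Qp := paG m c r b sn A D) hS g.pos
    (Ux := fun _ => ℤ) (Qx := fun k => qu m c r b sn (kt + 1) (εt * DF k + s)) n
    (fun k _ _ => ⟨hex.prod (qu_exs g.ch g.bG _ _), hpp, fun i hi =>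
      g.quf hi le_rfl (by
        rw [hz]
        linarith [hDS k, hDFX k])⟩)
  have g1 := g.sub a2
  obtain ⟨S₂, b1, b2, ψ₂, b3⟩ := snum_all (f := fun J (F : Fam m J) => ptr F J)
    (y := fun _ (F : Fam m _) => F.T) (N := L ^ n) (x := x) (Qp := paG m c r b sn A D) a1 g1.pos
    (Ux := fun _ => ℤ × ℤ) (Qx := fun k => xg m c r b sn γ s (kt + 1) (εh * (εt * DF k))) n
    (fun k _ _ => ⟨(hex.sub a2).prod (xg_exs g1.ch g1.tw g1.bG hγ0 _ _),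
      fun i hi => (hpp i hi).sub a2, fun i hi =>
      g1.xgf hi hla hγ0 g.γs hγ0 g.γs (hD20 k) le_rfl (by
        rw [hz]
        linarith [hDS k, hDFX k, hD2 k])⟩)
  have hs2 : ∀ (τ : ℝ) (J : ℕ) (F : Fam m J) (A : F.Ω → Prop), S₂.St τ J F A → S.St τ J F A :=
    fun τ J F A h => a2 τ J F A (b2 τ J F A h)
  have g2 := g.sub hs2
  have hqn : 0 < q / (L : ℝ) ^ n := by positivity
  have hLk : (1 : ℝ) ≤ (L + 1) * (kt + 1) := by nlinarith
  have hsm1 : s + 3 * ε + a * μ ≤ q / (L : ℝ) ^ n := by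
    have h1 : 1 * (s + 3 * ε + a * μ + γ) ≤
        12 * ((L + 1) * (kt + 1)) * (s + 3 * ε + a * μ + γ) :=
      mul_le_mul_of_nonneg_right (by linarith) (by linarith)
    have h2 : η * (q / (L : ℝ) ^ n) ≤ 1 * (q / (L : ℝ) ^ n) :=
      mul_le_mul_of_nonneg_right hη1 hqn.le
    linarith
  have hsmk : ∀ k ≤ n, s + 3 * ε + a * μ ≤ q / (L : ℝ) ^ k := fun k hk =>
    hsm1.trans (div_le_div_of_nonneg_left hq.le (by positivity) (pow_le_pow_right₀ hL1 hk))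
  obtain ⟨S', h1, h2, θ, ψ, k, P, r1, r2, h3, h4, h5, h6, h7, h9, h8, h10⟩ :=
    boxd_rel (t := t) (q := q) (β := β) (κ₁ := η / 2) (B := 2 * (CF * E) + 1)
      (Ux := fun _ => ℤ × ℤ) (Qx := fun k => xL m c r (kt + 1) b sn (DF k) s) (kt := kt) (φ := φ)
      b1 (hM.sub hs2) g2 hL hn hn' hβ hq htq hη hη1 (half_pos hη) hxw (by linarith)
      (fun k _ _ => (g2.sin hla (hDF0 k) (hDFX k)).1)
      (fun k _ hk => ((g2.sin hla (hDF0 k) (hDFX k)).2).mono (by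
        have e1 := hsmk k hk
        have e2 : 0 ≤ 2 * DF k + s + 3 * ε + a * μ := by linarith [hDF0 k]
        have e3 : Real.log 2 * (2 * DF k + s + 3 * ε + a * μ) ≤
            2 * DF k + s + 3 * ε + a * μ := mul_le_of_le_one_left e2 hl21
        have e4 : (2 * (CF * E) + 1) * (q / (L : ℝ) ^ k) = 2 * DF k + q / (L : ℝ) ^ k := by
          rw [hDF]
          ring
        rw [e4]
        linarith)) (by linarith) hnum hsm he₁
      (fun l l1 l2 i j hij hj => (hvf l l1 l2 i j hij hj).sub hs2)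
      (fun l l1 l2 i j hij hj => (hva l l1 l2 i j hij hj).sub hs2)
  have hs3 : ∀ (τ : ℝ) (J : ℕ) (F : Fam m J) (A : F.Ω → Prop), S'.St τ J F A → S.St τ J F A :=
    fun τ J F A h => hs2 τ J F A (h2 τ J F A h)
  have g3 := g.sub hs3
  obtain ⟨I, hI⟩ : ∃ I : ℕ → ℕ, I = fun i => (P + i) * L ^ (n - k) := ⟨_, rfl⟩
  have hIe : ∀ i, (P + i) * L ^ (n - k) = I i := fun i => by rw [hI]
  have hIm : ∀ i j, i ≤ j → I i ≤ I j := fun i j h => by
    rw [hI]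
    exact Nat.mul_le_mul_right _ (by omega)
  have hIN : ∀ i ≤ L, I i ≤ L ^ n := fun i hi => by
    rw [← hIe]
    exact (h9 i hi).1
  have hIx : ∀ i ≤ L, t + ((P + i : ℕ) / (L : ℝ) ^ k) * q = x (I i) := fun i hi => by
    rw [← hIe]
    exact (h9 i hi).2.symm
  obtain ⟨u, hu⟩ : ∃ u : ℝ, u = q / (L : ℝ) ^ k := ⟨_, rfl⟩
  have hu0 : 0 < u := by
    rw [hu]
    positivity
  have hηu0 : 0 < η * u := by positivity
  have hDu : CF * (E * u) = DF k := by rw [hu, hDFk]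
  have hdrop : ∀ i j, i ≤ j → j ≤ L → ψ k (I i) ≤ ψ k (I j) + η / 2 * u := fun i j hij hj => by
    have := h10 i j hij hj
    rw [hIe, hIe, ← hu] at this
    exact this
  rw [← hu] at h8
  refine ⟨S', h1, hs3, θ, k, P, h3, h4, h5, h6, h7, ?_⟩
  rw [← hu]
  refine
    { toBoxD := h8
      dp := ?_
      ipF := fun i j hij hj => ?_
      ipS := fun i j hij hj => ?_
      n1 := fun i hi => ?_
      n2 := fun i hi => ?_ }
  · rw [hDu, hIx 0 (Nat.zero_le _)]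
    have e1 := g.deep
    have e2 := g.mono 0 (I 0) (Nat.zero_le _) (hIN 0 (Nat.zero_le _))
    have e3 : 0 ≤ a * (x (L ^ n) - x 0) := mul_nonneg g.a0 (by linarith)
    linarith [hDFX k]
  · rw [hDu, hIx i (hij.trans hj), hIx j hj]
    have hc := g3.xgf (hIN i (hij.trans hj)) hla (γ₁ := 0) (γ₂ := γ) le_rfl hs0 hγ0 g.γs (hDF0 k)
      (le_refl (DF k)) (by rw [hz]; linarith [hDFX k])
    rw [xg_eq] at hc
    exact ipx_part (κ := η / 2 * u) g3.pos (g.mono _ _ (hIm i j hij) (hIN j hj))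
      ((g.jN (hIN j hj)).trans g.x1) (r2 k h3 h5 (I i) (hIN i (hij.trans hj)))
      (r2 k h3 h5 (I j) (hIN j hj)) (r1 (I j) (hIN j hj)) hc (xL_exs g3.ch g3.tw g3.bG _ _ _)
      (hdrop i j hij hj) (by linarith)
  · rw [hDu, hIx i (hij.trans hj), hIx j hj]
    have hc := g3.xgf (hIN i (hij.trans hj)) hla (γ₁ := 0) (γ₂ := γ) le_rfl hs0 hγ0 g.γs (hDS0 k)
      (hDS k) (by rw [hz]; linarith [hDFX k, hDS k])
    rw [xg_eq] at hc
    exact ipx_part (κ := η / 2 * u) g3.pos (g.mono _ _ (hIm i j hij) (hIN j hj))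
      ((g.jN (hIN j hj)).trans g.x1) (r2 k h3 h5 (I i) (hIN i (hij.trans hj)))
      (r2 k h3 h5 (I j) (hIN j hj)) (r1 (I j) (hIN j hj)) hc (xL_exs g3.ch g3.tw g3.bG _ _ _)
      (hdrop i j hij hj) (by linarith)
  · rw [hDu, hIx i hi]
    obtain ⟨η', hη'⟩ := r1 (I i) (hIN i hi)
    have hN := ((a3 k h3 h5 (I i) (hIN i hi)).sub b2).sub h2
    obtain ⟨e₂, he₂, H⟩ := RNN.alF g3.pos hη' hN hηu0
    exact ⟨_, RNN.fewC g3.pos hη' hN, e₂, he₂, H e₂ le_rfl⟩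
  · rw [hDu, hIx i hi]
    obtain ⟨η', hη'⟩ := r1 (I i) (hIN i hi)
    have hN := (b3 k h3 h5 (I i) (hIN i hi)).sub h2
    obtain ⟨e₂, he₂, H⟩ := RNN.alF g3.pos hη' hN hηu0
    exact ⟨_, RNN.fewC g3.pos hη' hN, e₂, he₂, H e₂ le_rfl⟩

end

end Pool.AB62
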