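import Pool.Agent.H62.AB.IpR
import Pool.Agent.H63.AB.Cnv

/-!
# The letters of the last step from relative numbers

`IpR.ipf`: `IpF` for all small accuracies. `RNN.alF`: the quantity is alive at the rate of its number.
-/

set_option autoImplicit false

namespace Pool.AB62

open Finset Real
open Pool.Agent.H49.Ent Pool.Agent.H32.Dense Pool.STK Pool.KA Pool.KSAT Pool.K2S Pool.PB Pool.S6C
open Pool.GEN Pool.RCD Pool.LA91 Pool.OWN83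
open Pool.AB63 (IpF AlF)

section

variable {m : ℕ} {Up U U' : Type} {α γ : ∀ J : ℕ, Fam m J → Type}
  {f : ∀ (J : ℕ) (F : Fam m J), F.Ω → α J F}
  {y : ∀ (J : ℕ) (F : Fam m J), F.Ω → γ J F} {S : PCl m} {Qp : Qt m Up}

/-- **`IpF`** for all small accuracies and all small errors of the maximal record. -/
theorem IpR.ipf {Xo : Qt m U} {Xt : Qt m U'} {w a κ : ℝ} (h : IpR S f y Qp Xo Xt w a κ) {c : ℝ}
    (hc : 0 < c) : ∃ k₁ : ℝ, 0 < k₁ ∧ ∃ e₁ : ℝ, 0 < e₁ ∧ ∀ k e : ℝ, k ≤ k₁ → e ≤ e₁ →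
      IpF S f w a y Qp Xo Xt e k (κ + c) := by
  obtain ⟨k₁, hk₁, e₁, he₁, H⟩ := h c hc
  refine ⟨k₁, hk₁, e₁, he₁, fun k e hk he K => Bas.mono 0 (H K) ?_⟩
  intro J _ F A h1 V z hz V₁ z₁ hz₁ pa uo ut hpa huo hut
  exact h1 V z (hz.le hk) V₁ z₁ hz₁ pa uo ut (Qp.mono le_rfl he hpa) (Xo.mono le_rfl he huo)
    (Xt.mono le_rfl he hut)

/-- **Alive** at the rate of the number. -/
theorem RNN.alF
    (hpos : ∀ (τ : ℝ) (J : ℕ) (F : Fam m J) (A : F.Ω → Prop), S.St τ J F A → 0 < Pe F.p A)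
    {X : Qt m U} {a θ₀ η : ℝ} (hη : RNum S f (vg a) η) (n : RNN S f (vg a) y Qp X θ₀) {c : ℝ}
    (hc : 0 < c) : ∃ e₁ : ℝ, 0 < e₁ ∧ ∀ e : ℝ, e ≤ e₁ → AlF S f a y Qp X e (θ₀ - c) := by
  obtain ⟨e₁, he₁, H⟩ := n.low hpos hη c hc
  refine ⟨e₁, he₁, fun e he K => Bas.mono 0 (H K) ?_⟩
  intro J _ F A h1 u u' hu hu' V z hz
  exact h1 V z hz u u' (Qp.mono le_rfl he hu) (X.mono le_rfl he hu')

end

end Pool.AB62
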