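import Pool.Agent.H62.AB.NumR

/-!
# The record does not see more: from relative numbers

`IpR`: given a part `Xt` of a quantity `Xo` the maximal record of the window `w` sees at most `κ J`
bits less than the closed functions of the window `a`. `DrR`: the same without the part. `ipr_fam`,
`drr_sin`: from numbers which are almost additive, from a number with a small drop.
-/

set_option autoImplicit false

namespace Pool.AB62

open Finset Real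
open Pool.Agent.H49.Ent Pool.Agent.H32.Dense Pool.STK Pool.KA Pool.KSAT Pool.K2S Pool.PB Pool.S6C
open Pool.GEN Pool.RCD Pool.LA91 Pool.OWN83
open Pool.OWN68 (cl2_vg)
open Pool.T462 (ch_swap)

section

variable {m : ℕ} {Up U U' Ux : Type} {α β γ : ∀ J : ℕ, Fam m J → Type}
  {f : ∀ (J : ℕ) (F : Fam m J), F.Ω → α J F} {g : ∀ (J : ℕ) (F : Fam m J), F.Ω → β J F}
  {y : ∀ (J : ℕ) (F : Fam m J), F.Ω → γ J F} {S : PCl m} {Qp : Qt m Up}

/-- **The record does not see more** of `Xo` at the window `w` than at the window `a`, given the part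
`Xt`. -/
def IpR (S : PCl m) (f : ∀ (J : ℕ) (F : Fam m J), F.Ω → α J F)
    (y : ∀ (J : ℕ) (F : Fam m J), F.Ω → γ J F) (Qp : Qt m Up) (Xo : Qt m U) (Xt : Qt m U')
    (w a κ : ℝ) : Prop :=
  ∀ h : ℝ, 0 < h → ∃ k : ℝ, 0 < k ∧ ∃ e₀ : ℝ, 0 < e₀ ∧ ∀ K : ℕ, Bas S (fun J F A =>
    ∀ (V : Type) (z : F.Ω → V), Mx f (vg w) k F A z →
    ∀ (V₁ : Type) (z₁ : F.Ω → V₁), Cl2 (f J F) (vg a J F) A z₁ →
    ∀ pa uo ut, Qp.P K e₀ J F A pa → Xo.P K e₀ J F A uo → Xt.P K e₀ J F A ut →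
      CH (Pool.Agent.H49.Ent.cond F.p A True) uo
        (fun ω => (ut ω, (pa ω, (z ω, y J F ω)))) ≤
      CH (Pool.Agent.H49.Ent.cond F.p A True) uo (fun ω => (pa ω, (z₁ ω, y J F ω))) +
        (κ + h) * J)

/-- **The record does not see more** of `X` at the window `w` than at the window `a`. -/
def DrR (S : PCl m) (f : ∀ (J : ℕ) (F : Fam m J), F.Ω → α J F)
    (y : ∀ (J : ℕ) (F : Fam m J), F.Ω → γ J F) (Qp : Qt m Up) (X : Qt m U) (w a κ : ℝ) : Prop :=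
  ∀ h : ℝ, 0 < h → ∃ k : ℝ, 0 < k ∧ ∃ e₀ : ℝ, 0 < e₀ ∧ ∀ K : ℕ, Bas S (fun J F A =>
    ∀ (V : Type) (z : F.Ω → V), Mx f (vg w) k F A z →
    ∀ (V₁ : Type) (z₁ : F.Ω → V₁), Cl2 (f J F) (vg a J F) A z₁ →
    ∀ pa u, Qp.P K e₀ J F A pa → X.P K e₀ J F A u →
      CH (Pool.Agent.H49.Ent.cond F.p A True) u (fun ω => (pa ω, (z ω, y J F ω))) ≤
      CH (Pool.Agent.H49.Ent.cond F.p A True) u (fun ω => (pa ω, (z₁ ω, y J F ω))) +
        (κ + h) * J)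

theorem IpR.sub {S' : PCl m} (hs : ∀ (τ : ℝ) (J : ℕ) (F : Fam m J) (A : F.Ω → Prop),
    S'.St τ J F A → S.St τ J F A) {Xo : Qt m U} {Xt : Qt m U'} {w a κ : ℝ}
    (h : IpR S f y Qp Xo Xt w a κ) : IpR S' f y Qp Xo Xt w a κ := by
  intro c hc
  obtain ⟨k, hk, e, he, h1⟩ := h c hc
  exact ⟨k, hk, e, he, fun K => (h1 K).sub hs⟩

theorem DrR.sub {S' : PCl m} (hs : ∀ (τ : ℝ) (J : ℕ) (F : Fam m J) (A : F.Ω → Prop),
    S'.St τ J F A → S.St τ J F A) {X : Qt m U} {w a κ : ℝ}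
    (h : DrR S f y Qp X w a κ) : DrR S' f y Qp X w a κ := by
  intro c hc
  obtain ⟨k, hk, e, he, h1⟩ := h c hc
  exact ⟨k, hk, e, he, fun K => (h1 K).sub hs⟩

/-- **From numbers**: the numbers `θo`, `θt` of the window `w` and `θ'` of the window `a`. -/
theorem ipr_of
    (hpos : ∀ (τ : ℝ) (J : ℕ) (F : Fam m J) (A : F.Ω → Prop), S.St τ J F A → 0 < Pe F.p A)
    {Xo : Qt m U} {Xt : Qt m U'} {w a κ θo θt θ' η' : ℝ}
    (No : RNN S f (vg w) y Qp Xo θo) (Nt : RNN S f (vg w) y Qp Xt θt)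
    (Nn : RNN S f (vg a) y Qp Xo θ') (hη' : RNum S f (vg a) η')
    (hc : Few S f (vg w) y (Qp.prod Xo) Xt) (hθ : θo ≤ θt + θ' + κ) :
    IpR S f y Qp Xo Xt w a κ := by
  intro h hh
  obtain ⟨c, hcc⟩ : ∃ c : ℝ, c = h / 4 := ⟨_, rfl⟩
  have hc0 : 0 < c := by rw [hcc]; positivity
  obtain ⟨k1, hk1, e1, he1, H1⟩ := No c hc0
  obtain ⟨k2, hk2, e2, he2, H2⟩ := Nt c hc0
  obtain ⟨e3, he3, H3⟩ := hc.mx hpos c hc0
  obtain ⟨e5, he5, H5⟩ := Nn.low hpos hη' c hc0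
  obtain ⟨e₀, he₀, l1, l2, l3, l5⟩ : ∃ e₀ : ℝ, 0 < e₀ ∧ e₀ ≤ e1 ∧ e₀ ≤ e2 ∧ e₀ ≤ e3 ∧
      e₀ ≤ e5 :=
    ⟨min e1 (min e2 (min e3 e5)), by positivity, min_le_left _ _,
      (min_le_right _ _).trans (min_le_left _ _),
      (min_le_right _ _).trans ((min_le_right _ _).trans (min_le_left _ _)),
      (min_le_right _ _).trans ((min_le_right _ _).trans (min_le_right _ _))⟩
  obtain ⟨k₀, hk₀, m1, m2, m3⟩ : ∃ k₀ : ℝ, 0 < k₀ ∧ k₀ ≤ k1 ∧ k₀ ≤ k2 ∧ k₀ ≤ c / 2 :=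
    ⟨min k1 (min k2 (c / 2)), by positivity, min_le_left _ _,
      (min_le_right _ _).trans (min_le_left _ _),
      (min_le_right _ _).trans (min_le_right _ _)⟩
  refine ⟨k₀, hk₀, e₀, he₀, fun K => Bas.mono 0 ((((H1 K).and (H2 K)).and
    ((H3 K).and (H5 K))).and (pos_bas hpos)) ?_⟩
  rintro J - F A ⟨⟨⟨h1, h2⟩, ⟨h3, h5⟩⟩, hA⟩ V z hz V₁ z₁ hz₁ pa uo ut hpa huo hut
  have hJ0 : (0 : ℝ) ≤ J := Nat.cast_nonneg J
  have hcl := isLaw_cond F.isLaw hA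
  have pae : ∀ e, e₀ ≤ e → Qp.P K e J F A pa := fun e he => Qp.mono le_rfl he hpa
  have ue : ∀ e, e₀ ≤ e → Xo.P K e J F A uo := fun e he => Xo.mono le_rfl he huo
  have te : ∀ e, e₀ ≤ e → Xt.P K e J F A ut := fun e he => Xt.mono le_rfl he hut
  have a1 := (abs_le.1 (h1 V z (hz.le m1) pa uo (pae _ l1) (ue _ l1))).2
  have a2 := (abs_le.1 (h2 V z (hz.le m2) pa ut (pae _ l2) (te _ l2))).1
  have a3 := h3 V z (hz.le m3) (fun ω => (pa ω, uo ω)) ut ⟨pae _ l3, ue _ l3⟩ (te _ l3)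
  have a5 := h5 V₁ z₁ hz₁ pa uo (pae _ l5) (ue _ l5)
  have b1 := ch_swap hcl.nonneg uo ut (fun ω => (pa ω, (z ω, y J F ω)))
  have b5 : CH (Pool.Agent.H49.Ent.cond F.p A True) ut
      (fun ω => (uo ω, (pa ω, (z ω, y J F ω)))) ≤
      CH (Pool.Agent.H49.Ent.cond F.p A True) ut
        (fun ω => ((pa ω, uo ω), (z ω, y J F ω))) := by
    refine CH_mono_cond hcl.nonneg fun ω ω' _ _ hh => ?_
    simp only [Prod.mk.injEq] at hh ⊢
    exact ⟨⟨hh.2.1, hh.1⟩, hh.2.2⟩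
  have e1 : h * (J : ℝ) = 4 * (c * J) := by rw [hcc]; ring
  have e2 := mul_le_mul_of_nonneg_right hθ hJ0
  rw [add_mul, e1]
  linarith

/-- **From the numbers of one quantity** at two windows. -/
theorem drr_of
    (hpos : ∀ (τ : ℝ) (J : ℕ) (F : Fam m J) (A : F.Ω → Prop), S.St τ J F A → 0 < Pe F.p A)
    {X : Qt m U} {w a κ ψ ψ' η' : ℝ} (N : RNN S f (vg w) y Qp X ψ)
    (N' : RNN S f (vg a) y Qp X ψ') (hη' : RNum S f (vg a) η') (hψ : ψ ≤ ψ' + κ) :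
    DrR S f y Qp X w a κ := by
  intro h hh
  obtain ⟨k1, hk1, e1, he1, H1⟩ := N (h / 2) (half_pos hh)
  obtain ⟨e2, he2, H2⟩ := N'.low hpos hη' (h / 2) (half_pos hh)
  refine ⟨k1, hk1, min e1 e2, lt_min he1 he2, fun K => Bas.mono 0 ((H1 K).and (H2 K)) ?_⟩
  rintro J - F A ⟨h1, h2⟩ V z hz V₁ z₁ hz₁ pa u hpa hu
  have hJ0 : (0 : ℝ) ≤ J := Nat.cast_nonneg J
  have a1 := (abs_le.1 (h1 V z hz pa u (Qp.mono le_rfl (min_le_left _ _) hpa)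
    (X.mono le_rfl (min_le_left _ _) hu))).2
  have a2 := h2 V₁ z₁ hz₁ pa u (Qp.mono le_rfl (min_le_right _ _) hpa)
    (X.mono le_rfl (min_le_right _ _) hu)
  have e2 := mul_le_mul_of_nonneg_right hψ hJ0
  rw [add_mul]
  linarith

variable {N : ℕ} {x : ℕ → ℝ} {Q : ℕ → Qt m U} {Qx : Qt m Ux} {C δ : ℝ} {θ : ℕ → ℕ → ℝ} {ψ : ℕ → ℝ}

/-- **The family with almost additive numbers**: `w = x i`, `a = x j`, the digits of `x l` given those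
of `x j`. -/
theorem ipr_fam
    (hpos : ∀ (τ : ℝ) (J : ℕ) (F : Fam m J) (A : F.Ω → Prop), S.St τ J F A → 0 < Pe F.p A)
    (h : RFam S f y N x Qp Q C δ) (r : RcNums S f N x) (n : RNums S f y N x Qp Q θ)
    {i j l : ℕ} (hij : i ≤ j) (hjl : j ≤ l) (hl : l ≤ N) {κ : ℝ} (hθ : θ i l ≤ θ i j + θ j l + κ) :
    IpR S f y Qp (Q l) (Q j) (x i) (x j) κ := by
  obtain ⟨η', hη'⟩ := r j (hjl.trans hl)
  exact ipr_of hpos (n i l (hij.trans hjl) hl) (n i j hij (hjl.trans hl)) (n j l hjl hl) hη'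
    (h.crs i j l hij hjl hl) hθ

/-- **The single quantity with a small drop.** -/
theorem drr_sin
    (hpos : ∀ (τ : ℝ) (J : ℕ) (F : Fam m J) (A : F.Ω → Prop), S.St τ J F A → 0 < Pe F.p A)
    (r : RcNums S f N x) (n : SNums S f y N x Qp Qx ψ) {i j : ℕ} (hi : i ≤ N) (hj : j ≤ N) {κ : ℝ}
    (hψ : ψ i ≤ ψ j + κ) : DrR S f y Qp Qx (x i) (x j) κ := by
  obtain ⟨η', hη'⟩ := r j hj
  exact drr_of hpos (n i hi) (n j hj) hη' hψ

/-- **The upper bound by the number** for some closed functions. -/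
theorem RNN.fewC
    (hpos : ∀ (τ : ℝ) (J : ℕ) (F : Fam m J) (A : F.Ω → Prop), S.St τ J F A → 0 < Pe F.p A)
    {X : Qt m U} {θ₀ η : ℝ} (hη : RNum S f g η) (n : RNN S f g y Qp X θ₀) :
    FewC S f g y Qp X θ₀ := by
  intro h hh
  obtain ⟨k, hk, e₀, he₀, H⟩ := n h hh
  refine ⟨e₀, he₀, fun K => Bas.mono 0 ((H K).and (mx_ex hpos hη k hk)) ?_⟩
  rintro J - F A ⟨h1, V, z, hz⟩ u u' hu hu'
  have a1 := (abs_le.1 (h1 V z hz u u' hu hu')).2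
  exact ⟨V, z, hz.1, by linarith⟩

end

end Pool.AB62
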