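import Pool.Agent.H62.AB.IpF
import Pool.Agent.H63.AB.Bxd

/-!
# The letters of one hop from relative numbers

`rnn_eqv`: quantities which are few bits from each other have the same number. `ipx_num`: `Ipx` from
three numbers. `ipx_part`: `Ipx` for a part of a quantity whose number has a small drop.
-/

set_option autoImplicit false

namespace Pool.AB62

open Finset Real
open Pool.Agent.H49.Ent Pool.Agent.H32.Dense Pool.STK Pool.KA Pool.KSAT Pool.K2S Pool.PB Pool.S6C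
open Pool.GEN Pool.RCD Pool.LA91 Pool.OWN83
open Pool.OWN68 (cl2_vg)
open Pool.T462 (ch_swap)
open Pool.AB63 (IpF AlF Ipx)

section

variable {m : ℕ} {Up U U' U'' : Type} {α β γ : ∀ J : ℕ, Fam m J → Type}
  {f : ∀ (J : ℕ) (F : Fam m J), F.Ω → α J F} {g : ∀ (J : ℕ) (F : Fam m J), F.Ω → β J F}
  {y : ∀ (J : ℕ) (F : Fam m J), F.Ω → γ J F} {S : PCl m} {Qp : Qt m Up}

/-- **Equivalent quantities have the same number.** -/
theorem rnn_eqv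
    (hpos : ∀ (τ : ℝ) (J : ℕ) (F : Fam m J) (A : F.Ω → Prop), S.St τ J F A → 0 < Pe F.p A)
    {Q : Qt m U} {Q' : Qt m U'} {θ : ℝ} (N : RNN S f g y Qp Q θ)
    (h₁ : Few S f g y (Qp.prod Q) Q') (h₂ : Few S f g y (Qp.prod Q') Q) (hx : Exs S Q) :
    RNN S f g y Qp Q' θ := by
  intro h hh
  obtain ⟨c, hcc⟩ : ∃ c : ℝ, c = h / 2 := ⟨_, rfl⟩
  have hc0 : 0 < c := by rw [hcc]; positivity
  obtain ⟨k1, hk1, e1, he1, H1⟩ := N c hc0
  obtain ⟨e2, he2, H2⟩ := h₁.mx hpos c hc0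
  obtain ⟨e3, he3, H3⟩ := h₂.mx hpos c hc0
  obtain ⟨e₀, he₀, l1, l2, l3⟩ : ∃ e₀ : ℝ, 0 < e₀ ∧ e₀ ≤ e1 ∧ e₀ ≤ e2 ∧ e₀ ≤ e3 :=
    ⟨min e1 (min e2 e3), by positivity, min_le_left _ _,
      (min_le_right _ _).trans (min_le_left _ _), (min_le_right _ _).trans (min_le_right _ _)⟩
  obtain ⟨K₁, M, hx⟩ := hx e₀ he₀
  refine ⟨min k1 (c / 2), lt_min hk1 (half_pos hc0), e₀, he₀, fun K => Bas.mono 0
    ((((H1 (max K K₁)).and ((H2 (max K K₁)).and (H3 (max K K₁)))).and hx).and (pos_bas hpos)) ?_⟩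
  rintro J - F A ⟨⟨⟨h1, h2, h3⟩, u, hu, -⟩, hA⟩ V z hz pa u' hpa hu'
  have hJ0 : (0 : ℝ) ≤ J := Nat.cast_nonneg J
  have hcl := isLaw_cond F.isLaw hA
  have pae : ∀ e, e₀ ≤ e → Qp.P (max K K₁) e J F A pa := fun e he =>
    Qp.mono (le_max_left _ _) he hpa
  have ue : ∀ e, e₀ ≤ e → Q.P (max K K₁) e J F A u := fun e he =>
    Q.mono (le_max_right _ _) he hu
  have ue' : ∀ e, e₀ ≤ e → Q'.P (max K K₁) e J F A u' := fun e he =>
    Q'.mono (le_max_left _ _) he hu'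
  have a1 := abs_le.1 (h1 V z (hz.le (min_le_left _ _)) pa u (pae _ l1) (ue _ l1))
  have a2 := h2 V z (hz.le (min_le_right _ _)) (fun ω => (pa ω, u ω)) u' ⟨pae _ l2, ue _ l2⟩
    (ue' _ l2)
  have a3 := h3 V z (hz.le (min_le_right _ _)) (fun ω => (pa ω, u' ω)) u ⟨pae _ l3, ue' _ l3⟩
    (ue _ l3)
  have b1 := CH_le_add hcl.nonneg u' u (fun ω => (pa ω, (z ω, y J F ω)))
  have b2 := CH_le_add hcl.nonneg u u' (fun ω => (pa ω, (z ω, y J F ω)))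
  have b3 : CH (Pool.Agent.H49.Ent.cond F.p A True) u' (fun ω => (u ω, (pa ω, (z ω, y J F ω)))) ≤
      CH (Pool.Agent.H49.Ent.cond F.p A True) u'
        (fun ω => ((pa ω, u ω), (z ω, y J F ω))) := by
    refine CH_mono_cond hcl.nonneg fun ω ω' _ _ hh => ?_
    simp only [Prod.mk.injEq] at hh ⊢
    exact ⟨⟨hh.2.1, hh.1⟩, hh.2.2⟩
  have b4 : CH (Pool.Agent.H49.Ent.cond F.p A True) u (fun ω => (u' ω, (pa ω, (z ω, y J F ω)))) ≤
      CH (Pool.Agent.H49.Ent.cond F.p A True) u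
        (fun ω => ((pa ω, u' ω), (z ω, y J F ω))) := by
    refine CH_mono_cond hcl.nonneg fun ω ω' _ _ hh => ?_
    simp only [Prod.mk.injEq] at hh ⊢
    exact ⟨⟨hh.2.1, hh.1⟩, hh.2.2⟩
  have e1 : h * (J : ℝ) = 2 * (c * J) := by rw [hcc]; ring
  rw [e1, abs_le]
  constructor
  · linarith [a1.1]
  · linarith [a1.2]

/-- A part of a quantity: the loss of a later record is at most the loss of the quantity. -/
theorem ch_part {Ω A B C D : Type} [Fintype Ω] {p : Ω → ℝ} (hp : ∀ ω, 0 ≤ p ω) (a : Ω → A)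
    (b : Ω → B) (c : Ω → C) (d : Ω → D) :
    CH p b c - CH p b (fun ω => (d ω, c ω)) ≤
      CH p a c - CH p a (fun ω => (d ω, c ω)) + CH p b (fun ω => (a ω, c ω)) := by
  have s1 := ch_swap hp a b c
  have s2 := ch_swap hp a b (fun ω => (d ω, c ω))
  have s3 : CH p a (fun ω => (b ω, (d ω, c ω))) ≤ CH p a (fun ω => (b ω, c ω)) := by
    refine CH_mono_cond hp fun ω ω' _ _ hh => ?_
    simp only [Prod.mk.injEq] at hh ⊢
    exact ⟨hh.1, hh.2.2⟩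
  have s4 := CH_nonneg hp b (fun ω => (a ω, (d ω, c ω)))
  linarith

/-- **A part of a quantity whose number has a small drop**: the record does not see more of it. -/
theorem ipr_part
    (hpos : ∀ (τ : ℝ) (J : ℕ) (F : Fam m J) (A : F.Ω → Prop), S.St τ J F A → 0 < Pe F.p A)
    {X : Qt m U} {Xo : Qt m U'} {Xt : Qt m U''} {w a κ ψ ψ' η' : ℝ} (hwa : w ≤ a) (ha : a ≤ 1)
    (N : RNN S f (vg w) y Qp X ψ) (N' : RNN S f (vg a) y Qp X ψ') (hη' : RNum S f (vg a) η')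
    (hc : Few S f (vg w) y (Qp.prod X) Xo) (hx : Exs S X) (hψ : ψ ≤ ψ' + κ) :
    IpR S f y Qp Xo Xt w a κ := by
  intro h hh
  obtain ⟨c, hcc⟩ : ∃ c : ℝ, c = h / 3 := ⟨_, rfl⟩
  have hc0 : 0 < c := by rw [hcc]; positivity
  obtain ⟨k1, hk1, e1, he1, H1⟩ := N c hc0
  obtain ⟨e2, he2, H2⟩ := N'.low hpos hη' c hc0
  obtain ⟨e3, he3, H3⟩ := hc.mx hpos c hc0
  obtain ⟨e₀, he₀, l1, l2, l3⟩ : ∃ e₀ : ℝ, 0 < e₀ ∧ e₀ ≤ e1 ∧ e₀ ≤ e2 ∧ e₀ ≤ e3 :=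
    ⟨min e1 (min e2 e3), by positivity, min_le_left _ _,
      (min_le_right _ _).trans (min_le_left _ _), (min_le_right _ _).trans (min_le_right _ _)⟩
  obtain ⟨K₁, M, hx⟩ := hx e₀ he₀
  refine ⟨min k1 (c / 2), lt_min hk1 (half_pos hc0), e₀, he₀, fun K => Bas.mono 0
    ((((H1 (max K K₁)).and ((H2 (max K K₁)).and (H3 (max K K₁)))).and hx).and (pos_bas hpos)) ?_⟩
  rintro J - F A ⟨⟨⟨h1, h2, h3⟩, u, hu, -⟩, hA⟩ V z hz V₁ z₁ hz₁ pa uo ut hpa huo hut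
  have hJ0 : (0 : ℝ) ≤ J := Nat.cast_nonneg J
  have hcl := isLaw_cond F.isLaw hA
  have pae : ∀ e, e₀ ≤ e → Qp.P (max K K₁) e J F A pa := fun e he =>
    Qp.mono (le_max_left _ _) he hpa
  have ue : ∀ e, e₀ ≤ e → X.P (max K K₁) e J F A u := fun e he =>
    X.mono (le_max_right _ _) he hu
  have ue' : ∀ e, e₀ ≤ e → Xo.P (max K K₁) e J F A uo := fun e he =>
    Xo.mono (le_max_left _ _) he huo
  have a1 := (abs_le.1 (h1 V z (hz.le (min_le_left _ _)) pa u (pae _ l1) (ue _ l1))).2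
  have a2 := h2 _ (fun ω => (z₁ ω, z ω)) (hz₁.join (cl2_vg hwa ha hz.1)) pa u (pae _ l2) (ue _ l2)
  have a3 := h3 V z (hz.le (min_le_right _ _)) (fun ω => (pa ω, u ω)) uo ⟨pae _ l3, ue _ l3⟩
    (ue' _ l3)
  have b1 := ch_part hcl.nonneg u uo (fun ω => (pa ω, (z ω, y J F ω))) z₁
  have b2 : CH (Pool.Agent.H49.Ent.cond F.p A True) uo (fun ω => (ut ω, (pa ω, (z ω, y J F ω)))) ≤
      CH (Pool.Agent.H49.Ent.cond F.p A True) uo (fun ω => (pa ω, (z ω, y J F ω))) := by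
    refine CH_mono_cond hcl.nonneg fun ω ω' _ _ hh => ?_
    simp only [Prod.mk.injEq] at hh ⊢
    exact hh.2
  have b3 : CH (Pool.Agent.H49.Ent.cond F.p A True) uo
      (fun ω => (z₁ ω, (pa ω, (z ω, y J F ω)))) ≤
      CH (Pool.Agent.H49.Ent.cond F.p A True) uo (fun ω => (pa ω, (z₁ ω, y J F ω))) := by
    refine CH_mono_cond hcl.nonneg fun ω ω' _ _ hh => ?_
    simp only [Prod.mk.injEq] at hh ⊢
    exact ⟨hh.2.1, hh.1, hh.2.2.2⟩
  have b4 : CH (Pool.Agent.H49.Ent.cond F.p A True) u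
      (fun ω => (pa ω, ((z₁ ω, z ω), y J F ω))) ≤
      CH (Pool.Agent.H49.Ent.cond F.p A True) u (fun ω => (z₁ ω, (pa ω, (z ω, y J F ω)))) := by
    refine CH_mono_cond hcl.nonneg fun ω ω' _ _ hh => ?_
    simp only [Prod.mk.injEq] at hh ⊢
    exact ⟨hh.2.1.1, hh.1, hh.2.1.2, hh.2.2⟩
  have b5 : CH (Pool.Agent.H49.Ent.cond F.p A True) uo (fun ω => (u ω, (pa ω, (z ω, y J F ω)))) ≤
      CH (Pool.Agent.H49.Ent.cond F.p A True) uo
        (fun ω => ((pa ω, u ω), (z ω, y J F ω))) := by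
    refine CH_mono_cond hcl.nonneg fun ω ω' _ _ hh => ?_
    simp only [Prod.mk.injEq] at hh ⊢
    exact ⟨⟨hh.2.1, hh.1⟩, hh.2.2⟩
  have e1 : h * (J : ℝ) = 3 * (c * J) := by rw [hcc]; ring
  have e2 := mul_le_mul_of_nonneg_right hψ hJ0
  rw [add_mul, e1]
  linarith

/-! ### `Ipx` -/

theorem IpR.ipx {Xo : Qt m U} {Xt : Qt m U'} {w t κ κ' : ℝ}
    (h : IpR S (fun J F => ptr F J) (fun _ F => F.T) Qp Xo Xt w t κ) (hκ : κ < κ') :
    Ipx S w t Qp Xo Xt κ' := by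
  obtain ⟨k₁, hk₁, e₁, he₁, H⟩ := h.ipf (c := κ' - κ) (by linarith)
  rw [add_sub_cancel] at H
  exact ⟨e₁, he₁, k₁, hk₁, fun e k _ he _ hk => H k e hk he⟩

/-- **`Ipx` from three numbers.** -/
theorem ipx_num
    (hpos : ∀ (τ : ℝ) (J : ℕ) (F : Fam m J) (A : F.Ω → Prop), S.St τ J F A → 0 < Pe F.p A)
    {Xo : Qt m U} {Xt : Qt m U'} {w t κ κ' θ₁ θ₂ θ₃ : ℝ}
    (N₁ : RNN S (fun J F => ptr F J) (vg w) (fun _ F => F.T) Qp Xo θ₁)
    (N₂ : RNN S (fun J F => ptr F J) (vg w) (fun _ F => F.T) Qp Xt θ₂)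
    (N₃ : RNN S (fun J F => ptr F J) (vg t) (fun _ F => F.T) Qp Xo θ₃)
    (hη : ∃ η, RNum S (fun J F => ptr F J) (vg t) η)
    (hc : Few S (fun J F => ptr F J) (vg w) (fun _ F => F.T) (Qp.prod Xo) Xt)
    (hθ : θ₁ ≤ θ₂ + θ₃ + κ) (hκ : κ < κ') : Ipx S w t Qp Xo Xt κ' := by
  obtain ⟨η, hη⟩ := hη
  exact (ipr_of hpos N₁ N₂ N₃ hη hc hθ).ipx hκ

/-- **`Ipx` for a part** `Xo` of a quantity `X` whose number drops by at most `κ` from the window `w`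
to the window `t`; any `Xt`. -/
theorem ipx_part
    (hpos : ∀ (τ : ℝ) (J : ℕ) (F : Fam m J) (A : F.Ω → Prop), S.St τ J F A → 0 < Pe F.p A)
    {X : Qt m U} {Xo : Qt m U'} {Xt : Qt m U''} {w t κ κ' ψ ψ' : ℝ} (hwt : w ≤ t) (ht : t ≤ 1)
    (N : RNN S (fun J F => ptr F J) (vg w) (fun _ F => F.T) Qp X ψ)
    (N' : RNN S (fun J F => ptr F J) (vg t) (fun _ F => F.T) Qp X ψ')
    (hη : ∃ η, RNum S (fun J F => ptr F J) (vg t) η)
    (hc : Few S (fun J F => ptr F J) (vg w) (fun _ F => F.T) (Qp.prod X) Xo) (hx : Exs S X)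
    (hψ : ψ ≤ ψ' + κ) (hκ : κ < κ') : Ipx S w t Qp Xo Xt κ' := by
  obtain ⟨η, hη⟩ := hη
  exact (ipr_part hpos hwt ht N N' hη hc hx hψ).ipx hκ

end

end Pool.AB62
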