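import Pool.Agent.H62.T4.Num4

/-!
# Quantitative differentiation with exclusion

`quant_addE`: as `quant_addD`, the box found is not in a given small set of boxes. `drop_few`: an
antitone sequence has a small drop on all but few boxes. `box_rel`: for finitely many superadditive
functions and, for each scale, an antitone sequence, one box is good for all of them.
-/

set_option autoImplicit false

namespace Pool.AB62

open Finset Real
open Pool.T462 (sup_sum bad_child)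

/-- The children of a bad interval. -/
theorem bad_sum {F : ℕ → ℕ → ℝ} {N : ℕ} {δ : ℝ} (h0 : ∀ i j, i ≤ j → j ≤ N → 0 ≤ F i j)
    (sup : ∀ i j k, i ≤ j → j ≤ k → k ≤ N → F i j + F j k ≤ F i k + δ) {L a u : ℕ}
    (hN : a + L * u ≤ N) {D : ℝ} {i j k : ℕ} (hij : i ≤ j) (hjk : j ≤ k) (hk : k ≤ L)
    (hbad : F (a + i * u) (a + j * u) + F (a + j * u) (a + k * u) + (D + (L + 2) * δ) <
      F (a + i * u) (a + k * u)) :
    ∑ l ∈ range L, F (a + l * u) (a + (l + 1) * u) < F a (a + L * u) - D := by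
  have hm : ∀ {x y : ℕ}, x ≤ y → x * u ≤ y * u := fun h => Nat.mul_le_mul_right u h
  have b1 : a + k * u ≤ N := by have := hm hk; omega
  have b2 : a + j * u ≤ N := by have := hm hjk; omega
  have b3 : a + i * u ≤ N := by have := hm hij; omega
  have s1 := sup_sum h0 sup a u 0 i (Nat.zero_le _) b3
  have s2 := sup_sum h0 sup a u i j hij b2
  have s3 := sup_sum h0 sup a u j k hjk b1
  have s4 := sup_sum h0 sup a u k L hk hN
  have t1 := sup (a + 0 * u) (a + i * u) (a + k * u) (by omega)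
    (by have := hm (hij.trans hjk); omega) b1
  have t2 := sup (a + 0 * u) (a + k * u) (a + L * u) (by omega) (by have := hm hk; omega) hN
  have e1 := sum_Ico_consecutive (fun l => F (a + l * u) (a + (l + 1) * u)) (Nat.zero_le i)
    (hij.trans (hjk.trans hk))
  have e2 := sum_Ico_consecutive (fun l => F (a + l * u) (a + (l + 1) * u)) hij (hjk.trans hk)
  have e3 := sum_Ico_consecutive (fun l => F (a + l * u) (a + (l + 1) * u)) hjk hk
  have e0 : a + 0 * u = a := by omega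
  rw [e0] at s1 t1 t2
  rw [range_eq_Ico]
  push_cast at s1 s2 s3 s4
  linarith

/-- The sum over a range of pairs. -/
theorem sum_pairs (f : ℕ → ℝ) (A B : ℕ) :
    ∑ j ∈ range (A * B), f j = ∑ j' ∈ range A, ∑ l ∈ range B, f (j' * B + l) := by
  induction A with
  | zero => simp
  | succ A ih =>
    rw [Nat.succ_mul, sum_range_add, ih, sum_range_succ]

/-- **Quantitative differentiation with exclusion.** For each of the scales `m < n'` all but `β` boxes
have the property `P m`; then one of them is additive. -/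
theorem quant_addE {L n n' β : ℕ} (hL : 1 ≤ L) (hn : 1 ≤ n') (hn' : n' ≤ n)
    (hβ : 4 * β ≤ L ^ (n - n')) {F : ℕ → ℕ → ℝ} {C δ : ℝ} (hδ : 0 ≤ δ)
    (h0 : ∀ i j, i ≤ j → j ≤ L ^ n → 0 ≤ F i j) (hC : F 0 (L ^ n) ≤ C * (L : ℝ) ^ n)
    (sup : ∀ i j k, i ≤ j → j ≤ k → k ≤ L ^ n → F i j + F j k ≤ F i k + δ)
    (P : ℕ → ℕ → Prop) (hP : ∀ m < n', ∃ E : Finset ℕ, E.card ≤ β ∧
      ∀ j < L ^ (n - (m + 1)), j ∉ E → P m (j * L ^ (m + 1))) :
    ∃ m < n', ∃ a : ℕ, L ^ (m + 1) ∣ a ∧ a + L * L ^ m ≤ L ^ n ∧ P m a ∧ ∀ i j k : ℕ, i ≤ j →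
      j ≤ k → k ≤ L → F (a + i * L ^ m) (a + k * L ^ m) ≤
        F (a + i * L ^ m) (a + j * L ^ m) + F (a + j * L ^ m) (a + k * L ^ m) +
        (2 * C / n' * (L : ℝ) ^ (m + 1) + (3 * L + 2) * δ) := by
  classical
  have hL0 : (0 : ℝ) < L := by exact_mod_cast hL
  have hL1 : (1 : ℝ) ≤ L := by exact_mod_cast hL
  have hn0 : (0 : ℝ) < n' := by exact_mod_cast hn
  have hLn : (0 : ℝ) < (L : ℝ) ^ n := by positivity
  have hC0 : 0 ≤ C := by
    have h1 := (h0 0 (L ^ n) (Nat.zero_le _) le_rfl).trans hC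
    exact nonneg_of_mul_nonneg_left h1 hLn
  by_contra hcon
  push Not at hcon
  -- the sums
  obtain ⟨T, hT⟩ : ∃ T : ℕ → ℝ, T = fun m => ∑ j ∈ range (L ^ (n - m)),
    F (j * L ^ m) ((j + 1) * L ^ m) := ⟨_, rfl⟩
  have hpw : ∀ m ≤ n, L ^ (n - m) * L ^ m = L ^ n := fun m hm => by
    rw [← pow_add]
    congr 1
    omega
  have hin : ∀ m < n', ∀ j < L ^ (n - (m + 1)), j * L ^ (m + 1) + L * L ^ m ≤ L ^ n := by
    intro m hm j hj
    have e1 : L * L ^ m = L ^ (m + 1) := by rw [pow_succ]; ring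
    rw [e1, ← hpw (m + 1) (by omega)]
    calc j * L ^ (m + 1) + L ^ (m + 1) = (j + 1) * L ^ (m + 1) := by ring
      _ ≤ _ := Nat.mul_le_mul_right _ hj
  -- one scale
  have hone : ∀ m < n', T m + ((L : ℝ) ^ (n - (m + 1)) - β) *
      (2 * C / n' * (L : ℝ) ^ (m + 1) + 2 * L * δ) - β * (L * δ) < T (m + 1) := by
    intro m hm
    obtain ⟨E, hE, hEP⟩ := hP m hm
    obtain ⟨D, hD⟩ : ∃ D : ℝ, D = 2 * C / n' * (L : ℝ) ^ (m + 1) + 2 * L * δ := ⟨_, rfl⟩
    have hD0 : 0 ≤ D := by rw [hD]; positivity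
    rw [← hD]
    have e0 : L ^ (n - m) = L ^ (n - (m + 1)) * L := by
      rw [← pow_succ]
      congr 1
      omega
    have e1 : T m = ∑ j ∈ range (L ^ (n - (m + 1))), ∑ l ∈ range L,
        F (j * L ^ (m + 1) + l * L ^ m) (j * L ^ (m + 1) + (l + 1) * L ^ m) := by
      rw [hT]
      show ∑ j ∈ range (L ^ (n - m)), F (j * L ^ m) ((j + 1) * L ^ m) = _
      rw [e0, sum_pairs]
      refine sum_congr rfl fun j _ => sum_congr rfl fun l _ => ?_
      congr 1 <;> ring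
    have e2 : T (m + 1) = ∑ j ∈ range (L ^ (n - (m + 1))),
        F (j * L ^ (m + 1)) (j * L ^ (m + 1) + L * L ^ m) := by
      rw [hT]
      refine sum_congr rfl fun j _ => ?_
      congr 1
      ring
    -- one box
    have hb : ∀ j < L ^ (n - (m + 1)), j ∉ E → ∑ l ∈ range L,
        F (j * L ^ (m + 1) + l * L ^ m) (j * L ^ (m + 1) + (l + 1) * L ^ m) <
        F (j * L ^ (m + 1)) (j * L ^ (m + 1) + L * L ^ m) - D := by
      intro j hj hjE
      obtain ⟨i, j', k, h1, h2, h3, h4⟩ := hcon m hm (j * L ^ (m + 1)) (dvd_mul_left _ _)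
        (hin m hm j hj) (hEP j hj hjE)
      refine bad_sum h0 sup (hin m hm j hj) h1 h2 h3 (lt_of_le_of_lt (le_of_eq ?_) h4)
      rw [hD]
      ring
    have hg : ∀ j < L ^ (n - (m + 1)), ∑ l ∈ range L,
        F (j * L ^ (m + 1) + l * L ^ m) (j * L ^ (m + 1) + (l + 1) * L ^ m) ≤
        F (j * L ^ (m + 1)) (j * L ^ (m + 1) + L * L ^ m) + L * δ := by
      intro j hj
      have h1 := sup_sum h0 sup (j * L ^ (m + 1)) (L ^ m) 0 L (Nat.zero_le _) (hin m hm j hj)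
      have h2 : j * L ^ (m + 1) + 0 * L ^ m = j * L ^ (m + 1) := by omega
      rw [h2] at h1
      rw [range_eq_Ico]
      push_cast at h1
      linarith
    obtain ⟨R, hR⟩ : ∃ R : Finset ℕ, R = range (L ^ (n - (m + 1))) := ⟨_, rfl⟩
    have hcard : ((R \ E).card : ℝ) ≥ (L : ℝ) ^ (n - (m + 1)) - β := by
      have h1 := le_card_sdiff E R
      have h2 : R.card = L ^ (n - (m + 1)) := by rw [hR, card_range]
      have h3 : L ^ (n - (m + 1)) ≤ (R \ E).card + β := by omega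
      have h4 : ((L ^ (n - (m + 1)) : ℕ) : ℝ) ≤ (((R \ E).card + β : ℕ) : ℝ) := by
        exact_mod_cast h3
      push_cast at h4
      linarith
    have hβ' : 4 * (β : ℝ) ≤ (L : ℝ) ^ (n - (m + 1)) := by
      have h1 : L ^ (n - n') ≤ L ^ (n - (m + 1)) := Nat.pow_le_pow_right hL (by omega)
      exact_mod_cast hβ.trans h1
    have hne : (R \ E).Nonempty := by
      rw [← card_pos]
      have h1 : (1 : ℝ) ≤ (L : ℝ) ^ (n - (m + 1)) := one_le_pow₀ hL1
      have h2 : (0 : ℝ) < ((R \ E).card : ℝ) := by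
        have hβ0 : (0 : ℝ) ≤ β := Nat.cast_nonneg _
        linarith
      exact_mod_cast h2
    have s1 : ∑ j ∈ R \ E, ∑ l ∈ range L,
        F (j * L ^ (m + 1) + l * L ^ m) (j * L ^ (m + 1) + (l + 1) * L ^ m) <
        ∑ j ∈ R \ E, (F (j * L ^ (m + 1)) (j * L ^ (m + 1) + L * L ^ m) - D) := by
      refine sum_lt_sum_of_nonempty hne fun j hj => ?_
      rw [mem_sdiff, hR, mem_range] at hj
      exact hb j hj.1 hj.2
    have s2 : ∑ j ∈ R ∩ E, ∑ l ∈ range L,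
        F (j * L ^ (m + 1) + l * L ^ m) (j * L ^ (m + 1) + (l + 1) * L ^ m) ≤
        ∑ j ∈ R ∩ E, (F (j * L ^ (m + 1)) (j * L ^ (m + 1) + L * L ^ m) + L * δ) := by
      refine sum_le_sum fun j hj => ?_
      rw [mem_inter, hR, mem_range] at hj
      exact hg j hj.1
    rw [sum_sub_distrib, sum_const, nsmul_eq_mul] at s1
    rw [sum_add_distrib, sum_const, nsmul_eq_mul] at s2
    have u1 := sum_inter_add_sum_sdiff R E (fun j => ∑ l ∈ range L,
        F (j * L ^ (m + 1) + l * L ^ m) (j * L ^ (m + 1) + (l + 1) * L ^ m))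
    have u2 := sum_inter_add_sum_sdiff R E (fun j =>
        F (j * L ^ (m + 1)) (j * L ^ (m + 1) + L * L ^ m))
    have hc2 : ((R ∩ E).card : ℝ) * (L * δ) ≤ β * (L * δ) := by
      refine mul_le_mul_of_nonneg_right ?_ (by positivity)
      exact_mod_cast (card_le_card inter_subset_right).trans hE
    have hc1 : ((L : ℝ) ^ (n - (m + 1)) - β) * D ≤ ((R \ E).card : ℝ) * D :=
      mul_le_mul_of_nonneg_right hcard hD0
    rw [← hR] at e1 e2
    linarith
  -- all scales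
  have hβ0 : (0 : ℝ) ≤ β := Nat.cast_nonneg _
  have hterm : ∀ m < n', 3 / 2 * C / n' * (L : ℝ) ^ n + (L : ℝ) ^ (n - n') * δ ≤
      ((L : ℝ) ^ (n - (m + 1)) - β) *
      (2 * C / n' * (L : ℝ) ^ (m + 1) + 2 * L * δ) - β * (L * δ) := by
    intro m hm
    have hβ' : 4 * (β : ℝ) ≤ (L : ℝ) ^ (n - n') := by exact_mod_cast hβ
    have h1 : (L : ℝ) ^ (n - n') ≤ (L : ℝ) ^ (n - (m + 1)) :=
      pow_le_pow_right₀ hL1 (by omega)
    obtain ⟨X, hX⟩ : ∃ X : ℝ, X = (L : ℝ) ^ (n - (m + 1)) := ⟨_, rfl⟩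
    obtain ⟨Y, hY⟩ : ∃ Y : ℝ, Y = (L : ℝ) ^ (m + 1) := ⟨_, rfl⟩
    have hXY : X * Y = (L : ℝ) ^ n := by
      rw [hX, hY, ← pow_add]
      congr 1
      omega
    rw [← hX] at h1 ⊢
    rw [← hY, ← hXY]
    have hY0 : 0 < Y := by rw [hY]; positivity
    have hX0 : 0 < X := by rw [hX]; positivity
    have hK : 0 ≤ 2 * C / n' := by positivity
    have h2 : 3 / 4 * X ≤ X - β := by linarith
    have h3 : 3 / 4 * X * (2 * C / n' * Y + 2 * L * δ) ≤ (X - β) * (2 * C / n' * Y + 2 * L * δ) :=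
      mul_le_mul_of_nonneg_right h2 (by positivity)
    have h4 : β * (L * δ) ≤ 1 / 4 * X * (L * δ) :=
      mul_le_mul_of_nonneg_right (by linarith) (by positivity)
    have h5 : (L : ℝ) ^ (n - n') * δ ≤ X * (L * δ) := by
      have h6 : (L : ℝ) ^ (n - n') * δ ≤ X * δ := mul_le_mul_of_nonneg_right h1 hδ
      have h7 : X * δ ≤ X * (L * δ) :=
        mul_le_mul_of_nonneg_left (le_mul_of_one_le_left hδ hL1) hX0.le
      linarith
    have h8 : 3 / 4 * X * (2 * C / n' * Y + 2 * L * δ) = 3 / 2 * C / n' * (X * Y) +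
        3 / 2 * (X * (L * δ)) := by ring
    have h9 : 0 ≤ X * (L * δ) := by positivity
    linarith
  have hall : ∀ m ≤ n', 1 ≤ m → m * (3 / 2 * C / n' * (L : ℝ) ^ n + (L : ℝ) ^ (n - n') * δ) <
      T m := by
    intro m hm hm1
    induction m with
    | zero => exact absurd hm1 (by omega)
    | succ m ih =>
      have h1 := hone m (by omega)
      have h2 := hterm m (by omega)
      rcases Nat.eq_zero_or_pos m with h3 | h3
      · subst h3
        have h4 : 0 ≤ T 0 := by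
          rw [hT]
          refine sum_nonneg fun j hj => h0 _ _ (by simp) ?_
          rw [mem_range, Nat.sub_zero] at hj
          simpa using hj
        push_cast
        linarith
      · have h4 := ih (by omega) h3
        push_cast
        linarith
  have h1 := hall n' le_rfl hn
  have h2 : T n' ≤ F 0 (L ^ n) + (L : ℝ) ^ (n - n') * δ := by
    have h3 := sup_sum h0 sup 0 (L ^ n') 0 (L ^ (n - n')) (Nat.zero_le _)
      (by rw [hpw n' hn', Nat.zero_add])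
    rw [hpw n' hn'] at h3
    have e1 : T n' = ∑ l ∈ Ico 0 (L ^ (n - n')), F (0 + l * L ^ n') (0 + (l + 1) * L ^ n') := by
      rw [hT, ← range_eq_Ico]
      refine sum_congr rfl fun j _ => ?_
      rw [Nat.zero_add, Nat.zero_add]
    rw [e1]
    refine h3.trans (le_of_eq ?_)
    push_cast
    simp
  have h3 : (n' : ℝ) * (3 / 2 * C / n' * (L : ℝ) ^ n + (L : ℝ) ^ (n - n') * δ) =
      3 / 2 * C * (L : ℝ) ^ n + n' * ((L : ℝ) ^ (n - n') * δ) := by
    field_simp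
  have h4 : (L : ℝ) ^ (n - n') * δ ≤ n' * ((L : ℝ) ^ (n - n') * δ) :=
    le_mul_of_one_le_left (by positivity) (by exact_mod_cast hn)
  have h5 : 0 ≤ C * (L : ℝ) ^ n := by positivity
  linarith

/-- **The drop of an antitone sequence** is small on all but few boxes. -/
theorem drop_few {ψ : ℕ → ℝ} {A u β : ℕ} {B κ : ℝ} (hκ : 0 < κ)
    (hm : ∀ i j, i ≤ j → j ≤ A * u → ψ j ≤ ψ i) (h0 : 0 ≤ ψ (A * u)) (hB : ψ 0 ≤ B)
    (hβ : B ≤ κ * β) :
    ∃ E : Finset ℕ, E.card ≤ β ∧ ∀ j < A, j ∉ E → ψ (j * u) ≤ ψ ((j + 1) * u) + κ := by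
  classical
  obtain ⟨E, hE⟩ : ∃ E : Finset ℕ, E = (range A).filter
    (fun j => ψ ((j + 1) * u) + κ < ψ (j * u)) := ⟨_, rfl⟩
  refine ⟨E, ?_, fun j hj hjE => ?_⟩
  · have h1 : ∑ j ∈ range A, (ψ (j * u) - ψ ((j + 1) * u)) = ψ 0 - ψ (A * u) := by
      rw [sum_range_sub' (fun j => ψ (j * u)), Nat.zero_mul]
    have h2 : ∑ _j ∈ E, κ ≤ ∑ j ∈ E, (ψ (j * u) - ψ ((j + 1) * u)) := by
      refine sum_le_sum fun j hj => ?_
      rw [hE, mem_filter] at hj
      linarith [hj.2]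
    have h3 : ∑ j ∈ E, (ψ (j * u) - ψ ((j + 1) * u)) ≤
        ∑ j ∈ range A, (ψ (j * u) - ψ ((j + 1) * u)) := by
      refine sum_le_sum_of_subset_of_nonneg (by rw [hE]; exact filter_subset _ _) ?_
      intro j hj _
      rw [mem_range] at hj
      have h4 := hm (j * u) ((j + 1) * u) (Nat.mul_le_mul_right _ (Nat.le_succ j))
        (Nat.mul_le_mul_right _ hj)
      linarith
    rw [sum_const, nsmul_eq_mul] at h2
    have h5 : (E.card : ℝ) * κ ≤ β * κ := by linarith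
    exact_mod_cast le_of_mul_le_mul_right h5 hκ
  · by_contra hcon
    push Not at hcon
    exact hjE (by rw [hE, mem_filter, mem_range]; exact ⟨hj, hcon⟩)

/-- **One box** for finitely many superadditive functions and, for each scale, an antitone
sequence. -/
theorem box_rel {nl L n n' β : ℕ} (hL : 1 ≤ L) (hn : 1 ≤ n') (hn' : n' ≤ n)
    (hβ : 4 * β ≤ L ^ (n - n')) {q κ₀ κ₁ C δ B : ℝ} (hq : 0 < q) (hC : 0 ≤ C) (hδ : 0 ≤ δ)
    (hκ : 0 < κ₀) (hκ₁ : 0 < κ₁) {θ : ℕ → ℕ → ℕ → ℝ} {ψ : ℕ → ℕ → ℝ}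
    (hle : ∀ l < nl, ∀ i j : ℕ, i ≤ j → j ≤ L ^ n → 0 ≤ θ l i j ∧
      θ l i j ≤ C * (((j : ℝ) - i) / (L : ℝ) ^ n * q) + δ)
    (hsup : ∀ l < nl, ∀ i j k : ℕ, i ≤ j → j ≤ k → k ≤ L ^ n →
      θ l i j + θ l j k ≤ θ l i k + δ)
    (hψ : ∀ k, 1 ≤ k → k ≤ n → (∀ i ≤ L ^ n, 0 ≤ ψ k i) ∧
      (∀ i j, i ≤ j → j ≤ L ^ n → ψ k j ≤ ψ k i) ∧ ψ k 0 ≤ B * (q / (L : ℝ) ^ k))
    (hB : B ≤ κ₁ * β) (hnum : 4 * (nl * (C + 1)) * L ≤ κ₀ * n')
    (hδ' : 2 * ((3 * L + 3) * (nl * (δ * (L : ℝ) ^ n))) ≤ κ₀ * q) (hδq : δ ≤ q) :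
    ∃ k p : ℕ, 1 ≤ k ∧ n - n' < k ∧ k ≤ n ∧ L ∣ p ∧ p + L ≤ L ^ k ∧
      (∀ i ≤ L, (p + i) * L ^ (n - k) ≤ L ^ n ∧
        (((p + i) * L ^ (n - k) : ℕ) : ℝ) / (L : ℝ) ^ n = ((p + i : ℕ) : ℝ) / (L : ℝ) ^ k) ∧
      (∀ l < nl, ∀ i j : ℕ, i ≤ j → j ≤ L →
        0 ≤ θ l ((p + i) * L ^ (n - k)) ((p + j) * L ^ (n - k)) ∧
        θ l ((p + i) * L ^ (n - k)) ((p + j) * L ^ (n - k)) ≤
          C * (((j : ℝ) - i) * (q / (L : ℝ) ^ k)) + κ₀ * (q / (L : ℝ) ^ k)) ∧
      (∀ l < nl, ∀ i j i' : ℕ, i ≤ j → j ≤ i' → i' ≤ L →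
        θ l ((p + i) * L ^ (n - k)) ((p + j) * L ^ (n - k)) +
          θ l ((p + j) * L ^ (n - k)) ((p + i') * L ^ (n - k)) ≤
        θ l ((p + i) * L ^ (n - k)) ((p + i') * L ^ (n - k)) + κ₀ * (q / (L : ℝ) ^ k) ∧
        θ l ((p + i) * L ^ (n - k)) ((p + i') * L ^ (n - k)) ≤
          θ l ((p + i) * L ^ (n - k)) ((p + j) * L ^ (n - k)) +
          θ l ((p + j) * L ^ (n - k)) ((p + i') * L ^ (n - k)) + κ₀ * (q / (L : ℝ) ^ k)) ∧
      ∀ i j : ℕ, i ≤ j → j ≤ L → ψ k ((p + j) * L ^ (n - k)) ≤ ψ k ((p + i) * L ^ (n - k)) ∧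
        ψ k ((p + i) * L ^ (n - k)) ≤ ψ k ((p + j) * L ^ (n - k)) + κ₁ * (q / (L : ℝ) ^ k) := by
  classical
  have hL0 : (0 : ℝ) < L := by exact_mod_cast hL
  have hL1 : (1 : ℝ) ≤ L := by exact_mod_cast hL
  have hn0 : (0 : ℝ) < n' := by exact_mod_cast hn
  have hnl : (0 : ℝ) ≤ nl := Nat.cast_nonneg nl
  have hLn : (0 : ℝ) < (L : ℝ) ^ n := by positivity
  obtain ⟨Fs, hFs⟩ : ∃ Fs : ℕ → ℕ → ℝ, Fs = fun i j => ∑ l ∈ range nl, θ l i j := ⟨_, rfl⟩
  obtain ⟨m', hm', a, hd, ha, hPa, hadd⟩ := quant_addE (F := Fs)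
    (C := nl * (C * q + δ) / (L : ℝ) ^ n) (δ := nl * δ) hL hn hn' hβ (by positivity)
    (fun i j hij hj => by
      rw [hFs]
      exact sum_nonneg fun l hl => (hle l (mem_range.1 hl) i j hij hj).1) (by
      rw [div_mul_cancel₀ _ hLn.ne', hFs]
      have h3 : ∀ l ∈ range nl, θ l 0 (L ^ n) ≤ C * q + δ := by
        intro l hl
        have h4 := (hle l (mem_range.1 hl) 0 (L ^ n) (Nat.zero_le _) le_rfl).2
        push_cast at h4
        rw [sub_zero, div_self hLn.ne', one_mul] at h4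
        exact h4
      refine (sum_le_sum h3).trans (le_of_eq ?_)
      rw [sum_const, card_range, nsmul_eq_mul]) (fun i j k hij hjk hk => by
      rw [hFs]
      show ∑ l ∈ range nl, θ l i j + ∑ l ∈ range nl, θ l j k ≤ ∑ l ∈ range nl, θ l i k + nl * δ
      have e1 : (nl : ℝ) * δ = ∑ _l ∈ range nl, δ := by
        rw [sum_const, card_range, nsmul_eq_mul]
      rw [← sum_add_distrib, e1, ← sum_add_distrib]
      exact sum_le_sum fun l hl => hsup l (mem_range.1 hl) i j k hij hjk hk)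
    (fun m a => ψ (n - m) a ≤ ψ (n - m) (a + L ^ (m + 1)) + κ₁ * (q / (L : ℝ) ^ (n - m)))
    (fun m hm => by
      have hk1 : 1 ≤ n - m := by omega
      obtain ⟨p1, p2, p3⟩ := hψ (n - m) hk1 (Nat.sub_le _ _)
      have hs0 : 0 < q / (L : ℝ) ^ (n - m) := by positivity
      have hpw : L ^ (n - (m + 1)) * L ^ (m + 1) = L ^ n := by
        rw [← pow_add]
        congr 1
        omega
      obtain ⟨E, hE, hE2⟩ := drop_few (ψ := ψ (n - m)) (A := L ^ (n - (m + 1)))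
        (u := L ^ (m + 1)) (β := β) (B := B * (q / (L : ℝ) ^ (n - m)))
        (κ := κ₁ * (q / (L : ℝ) ^ (n - m))) (mul_pos hκ₁ hs0)
        (fun i j hij hj => p2 i j hij (by rwa [hpw] at hj)) (by rw [hpw]; exact p1 _ le_rfl) p3
        (by
          have := mul_le_mul_of_nonneg_right hB hs0.le
          linarith)
      refine ⟨E, hE, fun j hj hjE => ?_⟩
      have h4 := hE2 j hj hjE
      rw [show (j + 1) * L ^ (m + 1) = j * L ^ (m + 1) + L ^ (m + 1) by ring] at h4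
      exact h4)
  obtain ⟨k, hk⟩ : ∃ k, k = n - m' := ⟨_, rfl⟩
  have hk1 : 1 ≤ k := by omega
  have hkn : k ≤ n := by omega
  have hmk : n - k = m' := by omega
  rw [← hk] at hPa
  obtain ⟨b, hb⟩ := hd
  have hab : a = L * b * L ^ m' := by
    rw [hb, pow_succ]
    ring
  have hpw : L ^ k * L ^ m' = L ^ n := by
    rw [← pow_add]
    congr 1
    omega
  have hpwR : (L : ℝ) ^ k * (L : ℝ) ^ m' = (L : ℝ) ^ n := by exact_mod_cast hpw
  have hm0 : 0 < L ^ m' := by positivity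
  have hidx : ∀ i : ℕ, (L * b + i) * L ^ (n - k) = a + i * L ^ m' := fun i => by
    rw [hmk, hab]
    ring
  have hpL : L * b + L ≤ L ^ k := by
    have h3 : (L * b + L) * L ^ m' ≤ L ^ k * L ^ m' := by
      rw [hpw]
      refine le_trans (le_of_eq ?_) ha
      rw [hab]
      ring
    exact Nat.le_of_mul_le_mul_right h3 hm0
  have hin : ∀ i ≤ L, a + i * L ^ m' ≤ L ^ n := fun i hi => by
    have := Nat.mul_le_mul_right (L ^ m') hi
    omega
  have hρ : q / (L : ℝ) ^ k = (L : ℝ) ^ m' / (L : ℝ) ^ n * q := by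
    rw [← hpwR]
    field_simp
  have hk0 : (0 : ℝ) < (L : ℝ) ^ k := by positivity
  have hρ0 : 0 < q / (L : ℝ) ^ k := by positivity
  -- the small numbers
  have hsm : 2 * ((3 * L + 3) * (nl * δ)) ≤ κ₀ * (q / (L : ℝ) ^ k) := by
    have h3 : 2 * ((3 * L + 3) * (nl * δ)) ≤ κ₀ * (q / (L : ℝ) ^ n) := by
      rw [mul_div_assoc', le_div_iff₀ hLn]
      linarith
    refine h3.trans (mul_le_mul_of_nonneg_left ?_ hκ.le)
    refine div_le_div_of_nonneg_left hq.le hk0 ?_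
    exact pow_le_pow_right₀ hL1 hkn
  have hnδ : 0 ≤ nl * δ := by positivity
  have hLnδ : 0 ≤ L * (nl * δ) := by positivity
  have hbig : 2 * (nl * (C * q + δ) / (L : ℝ) ^ n) / n' * (L : ℝ) ^ (m' + 1) +
      (3 * L + 2) * (nl * δ) + nl * δ ≤ κ₀ * (q / (L : ℝ) ^ k) := by
    have h3 : 2 * (nl * (C * q + δ) / (L : ℝ) ^ n) / n' * (L : ℝ) ^ (m' + 1) ≤
        2 * (nl * (C + 1)) * L / n' * (q / (L : ℝ) ^ k) := by
      have h4 : 2 * (nl * (C * q + δ) / (L : ℝ) ^ n) / n' * (L : ℝ) ^ (m' + 1) =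
          (C * q + δ) * (2 * nl * L / n' * ((L : ℝ) ^ m' / (L : ℝ) ^ n)) := by
        rw [pow_succ]
        field_simp
      rw [h4, hρ]
      have h5 : C * q + δ ≤ (C + 1) * q := by linarith
      have h6 : (0 : ℝ) ≤ 2 * nl * L / n' * ((L : ℝ) ^ m' / (L : ℝ) ^ n) := by positivity
      refine (mul_le_mul_of_nonneg_right h5 h6).trans (le_of_eq ?_)
      ring
    have h4 : 2 * (nl * (C + 1)) * L / n' ≤ κ₀ / 2 := by
      rw [div_le_div_iff₀ hn0 (by norm_num)]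
      linarith
    have h5 := mul_le_mul_of_nonneg_right h4 hρ0.le
    linarith
  have hδs : ∀ l < nl, δ ≤ κ₀ * (q / (L : ℝ) ^ k) := by
    intro l hl
    have h3 : (1 : ℝ) ≤ nl := by exact_mod_cast (by omega : 1 ≤ nl)
    have h4 : δ ≤ nl * δ := le_mul_of_one_le_left hδ h3
    linarith
  refine ⟨k, L * b, hk1, by omega, hkn, dvd_mul_right _ _, hpL, fun i hi => ?_,
    fun l hl i j hij hj => ?_, fun l hl i j i' hij hji hi' => ?_, fun i j hij hj => ?_⟩
  · rw [hidx]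
    refine ⟨hin i hi, ?_⟩
    rw [hab, ← hpwR]
    push_cast
    field_simp
  · rw [hidx, hidx]
    have h3 := hle l hl (a + i * L ^ m') (a + j * L ^ m')
      (Nat.add_le_add_left (Nat.mul_le_mul_right _ hij) _) (hin j hj)
    refine ⟨h3.1, h3.2.trans (add_le_add (le_of_eq ?_) (hδs l hl))⟩
    rw [hρ]
    push_cast
    ring
  · rw [hidx, hidx, hidx]
    have h2 : ∀ l < nl, θ l (a + i * L ^ m') (a + j * L ^ m') +
        θ l (a + j * L ^ m') (a + i' * L ^ m') ≤ θ l (a + i * L ^ m') (a + i' * L ^ m') + δ :=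
      fun l hl => hsup l hl (a + i * L ^ m') (a + j * L ^ m') (a + i' * L ^ m')
        (Nat.add_le_add_left (Nat.mul_le_mul_right _ hij) _)
        (Nat.add_le_add_left (Nat.mul_le_mul_right _ hji) _) (hin i' hi')
    have h3 := h2 l hl
    refine ⟨by linarith [hδs l hl], ?_⟩
    have h4 := hadd i j i' hij hji hi'
    rw [hFs] at h4
    have h5 : θ l (a + i * L ^ m') (a + i' * L ^ m') + δ -
        θ l (a + i * L ^ m') (a + j * L ^ m') - θ l (a + j * L ^ m') (a + i' * L ^ m') ≤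
        ∑ l ∈ range nl, (θ l (a + i * L ^ m') (a + i' * L ^ m') + δ -
        θ l (a + i * L ^ m') (a + j * L ^ m') - θ l (a + j * L ^ m') (a + i' * L ^ m')) :=
      single_le_sum (f := fun l => θ l (a + i * L ^ m') (a + i' * L ^ m') + δ -
        θ l (a + i * L ^ m') (a + j * L ^ m') - θ l (a + j * L ^ m') (a + i' * L ^ m'))
        (fun l' hl' => by linarith [h2 l' (mem_range.1 hl')]) (mem_range.2 hl)
    rw [sum_sub_distrib, sum_sub_distrib, sum_add_distrib, sum_const, card_range,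
      nsmul_eq_mul] at h5
    linarith
  · rw [hidx, hidx]
    obtain ⟨p1, p2, p3⟩ := hψ k hk1 hkn
    have h1 : a ≤ a + i * L ^ m' := Nat.le_add_right _ _
    have h2 : a + i * L ^ m' ≤ a + j * L ^ m' :=
      Nat.add_le_add_left (Nat.mul_le_mul_right _ hij) _
    have h3 : a + j * L ^ m' ≤ a + L ^ (m' + 1) := by
      rw [pow_succ, mul_comm (L ^ m') L]
      exact Nat.add_le_add_left (Nat.mul_le_mul_right _ hj) _
    have h4 : a + L ^ (m' + 1) ≤ L ^ n := by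
      refine le_trans (le_of_eq ?_) ha
      rw [pow_succ]
      ring
    refine ⟨p2 _ _ h2 (h3.trans h4), ?_⟩
    have q1 := p2 _ _ h1 (h2.trans (h3.trans h4))
    have q2 := p2 _ _ h3 h4
    linarith

end Pool.AB62
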